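import Pool.Agent.H124R2.Vis.Exit
import Pool.Agent.H247R2.Warren

/-!
# The number of visibility graphs from above
-/

set_option autoImplicit false

namespace Pool.Agent.U446.Vis

open Vis124 Set MvPolynomial

/-- the index of the polynomials -/
abbrev Ix (n : ℕ) : Type := Bool × Fin n × Fin n × Fin n

/-- the coordinate variable -/
noncomputable def X1 {n : ℕ} (i : Fin n) : MvPolynomial (Fin n × Bool) ℝ := X (i, false)

/-- the coordinate variable -/
noncomputable def X2 {n : ℕ} (i : Fin n) : MvPolynomial (Fin n × Bool) ℝ := X (i, true)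

/-- the polynomials: orientations and scalar products -/
noncomputable def pol {n : ℕ} : Ix n → MvPolynomial (Fin n × Bool) ℝ
  | (false, i, j, k) => (X1 j - X1 i) * (X2 k - X2 i) - (X2 j - X2 i) * (X1 k - X1 i)
  | (true, i, j, k) => (X1 j - X1 i) * (X1 k - X1 i) + (X2 j - X2 i) * (X2 k - X2 i)

/-- the point configuration as a vector -/
def vec {n : ℕ} (v : Fin n → ℝ × ℝ) : Fin n × Bool → ℝ
  | (i, false) => (v i).1
  | (i, true) => (v i).2

theorem eval_pol_ori {n : ℕ} (v : Fin n → ℝ × ℝ) (i j k : Fin n) :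
    eval (vec v) (pol (false, i, j, k)) = ori (v i) (v j) (v k) := by
  simp [pol, X1, X2, vec, ori, cr]

theorem eval_pol_dot {n : ℕ} (v : Fin n → ℝ × ℝ) (i j k : Fin n) :
    eval (vec v) (pol (true, i, j, k)) = dotp (v i) (v j) (v k) := by
  simp [pol, X1, X2, vec, dotp]

theorem degree_mul_le {n : ℕ} {p q r s : MvPolynomial (Fin n × Bool) ℝ} (hp : p.totalDegree ≤ 1)
    (hq : q.totalDegree ≤ 1) (hr : r.totalDegree ≤ 1) (hs : s.totalDegree ≤ 1) :
    ((p - q) * (r - s)).totalDegree ≤ 2 := by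
  refine (totalDegree_mul _ _).trans ?_
  have h1 := totalDegree_sub p q
  have h2 := totalDegree_sub r s
  have h3 : max p.totalDegree q.totalDegree ≤ 1 := max_le hp hq
  have h4 : max r.totalDegree s.totalDegree ≤ 1 := max_le hr hs
  omega

theorem degree_pol {n : ℕ} (t : Ix n) : (pol t).totalDegree ≤ 2 := by
  have hx : ∀ a : Fin n × Bool, (X a : MvPolynomial (Fin n × Bool) ℝ).totalDegree ≤ 1 :=
    fun a => (totalDegree_X a).le
  obtain ⟨b, i, j, k⟩ := t
  cases b
  · refine (totalDegree_sub _ _).trans (max_le ?_ ?_) <;>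
      exact degree_mul_le (hx _) (hx _) (hx _) (hx _)
  · refine (totalDegree_add _ _).trans (max_le ?_ ?_) <;>
      exact degree_mul_le (hx _) (hx _) (hx _) (hx _)

/-- the sign vector -/
noncomputable def sv {n : ℕ} (v : Fin n → ℝ × ℝ) (t : Ix n) : SignType :=
  SignType.sign (eval (vec v) (pol t))

theorem sgn_pos {a b : ℝ} (h : SignType.sign a = SignType.sign b) : 0 < a ↔ 0 < b := by
  rw [← sign_eq_one_iff, ← sign_eq_one_iff, h]

theorem sgn_zero {a b : ℝ} (h : SignType.sign a = SignType.sign b) : a = 0 ↔ b = 0 := by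
  rw [← sign_eq_zero_iff (a := a), ← sign_eq_zero_iff (a := b), h]

theorem sgn_neg {a b : ℝ} (h : SignType.sign a = SignType.sign b) : a < 0 ↔ b < 0 := by
  rw [← sign_eq_neg_one_iff, ← sign_eq_neg_one_iff, h]

theorem sgn_mul {a b c d : ℝ} (h : SignType.sign a = SignType.sign b)
    (h' : SignType.sign c = SignType.sign d) : SignType.sign (a * c) = SignType.sign (b * d) := by
  rw [sign_mul, sign_mul, h, h']

theorem sgn_cmul {a b : ℝ} (σ : ℝ) (h : SignType.sign a = SignType.sign b) :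
    SignType.sign (σ * a) = SignType.sign (σ * b) := by
  rw [sign_mul, sign_mul, h]

section

variable {n : ℕ} {v w : Fin n → ℝ × ℝ} (hvw : sv v = sv w)
include hvw

theorem sgn_ori (i j k : Fin n) : SignType.sign (ori (v i) (v j) (v k)) =
    SignType.sign (ori (w i) (w j) (w k)) := by
  have := congrFun hvw (false, i, j, k)
  unfold sv at this
  rwa [eval_pol_ori, eval_pol_ori] at this

theorem sgn_dot (i j k : Fin n) : SignType.sign (dotp (v i) (v j) (v k)) =
    SignType.sign (dotp (w i) (w j) (w k)) := by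
  have := congrFun hvw (true, i, j, k)
  unfold sv at this
  rwa [eval_pol_dot, eval_pol_dot] at this

theorem sec_iff (σ : ℝ) (j k : Fin n) : v j - v k ∈ Sec σ (wd v k) (ud v k) ↔
    w j - w k ∈ Sec σ (wd w k) (ud w k) := by
  have h1 : SignType.sign (σ * cr (wd v k) (ud v k)) = SignType.sign (σ * cr (wd w k) (ud w k)) :=
    sgn_cmul σ (sgn_ori hvw k (sc k) (pd k))
  have h2 : SignType.sign (σ * cr (wd v k) (v j - v k)) =
      SignType.sign (σ * cr (wd w k) (w j - w k)) :=
    sgn_cmul σ (sgn_ori hvw k (sc k) j)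
  have h3 : SignType.sign (σ * cr (v j - v k) (ud v k)) =
      SignType.sign (σ * cr (w j - w k) (ud w k)) :=
    sgn_cmul σ (sgn_ori hvw k j (pd k))
  unfold Sec
  simp only [mem_setOf_eq]
  rw [sgn_pos h1, sgn_pos h2, sgn_pos h3, ← not_lt, ← not_lt, sgn_pos h1]

theorem vexit_iff (σ : ℝ) (i j k : Fin n) : VExit σ v i j k ↔ VExit σ w i j k := by
  unfold VExit
  rw [sec_iff hvw, sgn_zero (sgn_ori hvw i j k), ← not_lt, ← not_lt,
    sgn_pos (sgn_dot hvw k i j)]

theorem eexit_iff (σ : ℝ) (i j l : Fin n) : EExit σ v i j l ↔ EExit σ w i j l := by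
  unfold EExit
  rw [sgn_pos (sgn_cmul σ (sgn_ori hvw l (sc l) i)),
    sgn_neg (sgn_cmul σ (sgn_ori hvw l (sc l) j)),
    sgn_neg (sgn_mul (sgn_ori hvw i j l) (sgn_ori hvw i j (sc l)))]

end

/-- a polygon with a given orientation -/
def HasOri {n : ℕ} (σ : ℝ) (v : Fin n → ℝ × ℝ) (P : Set (ℝ × ℝ)) : Prop :=
  IsSimplePolygon v P ∧ (∀ k, Ev v (interior P) σ k) ∧ (∀ k, Ev v Pᶜ (-σ) k)

theorem visGraph_eq {n : ℕ} {σ : ℝ} (hσ : σ = 1 ∨ σ = -1) {v w : Fin n → ℝ × ℝ}
    {P Q : Set (ℝ × ℝ)} (hv : HasOri σ v P) (hw : HasOri σ w Q) (hvw : sv v = sv w) :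
    visGraph v P = visGraph w Q := by
  have key : ∀ {v : Fin n → ℝ × ℝ} {P : Set (ℝ × ℝ)}, HasOri σ v P → ∀ i j, i ≠ j →
      (segment ℝ (v i) (v j) ⊆ P ↔ ¬ ((∃ k, VExit σ v i j k) ∨ (∃ l, EExit σ v i j l))) := by
    intro v P h i j hij
    constructor
    · intro h1 h2
      exact not_visible_of_exit h.1 hσ h.2.2 hij h2 h1
    · intro h1
      by_contra h2
      exact h1 (exit_of_not_visible h.1 hσ h.2.1 h.2.2 hij h2)
  ext i j
  unfold visGraph
  simp only
  constructor
  · rintro ⟨h1, h2⟩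
    refine ⟨h1, ?_⟩
    rw [key hv i j h1] at h2
    rw [key hw i j h1]
    intro h3
    apply h2
    simp only [vexit_iff hvw, eexit_iff hvw]
    exact h3
  · rintro ⟨h1, h2⟩
    refine ⟨h1, ?_⟩
    rw [key hw i j h1] at h2
    rw [key hv i j h1]
    intro h3
    apply h2
    simp only [vexit_iff hvw, eexit_iff hvw] at h3
    exact h3

theorem N_le (n : ℕ) : N n ≤ 2 * (16 * n ^ 3 + 1) ^ (2 * n) := by
  classical
  -- the sign vectors of all configurations
  let S : Finset (Ix n → SignType) := Finset.univ.filter fun τ => ∃ v : Fin n → ℝ × ℝ, sv v = τ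
  have hS : S.card ≤ (16 * n ^ 3 + 1) ^ (2 * n) := by
    have h := Pool.Agent.H247R2.Warren.sign_count (J := Ix n) pol 2 degree_pol S (by
      intro τ hτ
      obtain ⟨v, hv⟩ := (Finset.mem_filter.1 hτ).2
      exact ⟨vec v, fun j => congrFun hv j⟩)
    have e1 : Fintype.card (Ix n) = 2 * n ^ 3 := by
      simp only [Ix, Fintype.card_prod, Fintype.card_bool, Fintype.card_fin]
      ring
    have e2 : Fintype.card (Fin n × Bool) = 2 * n := by
      simp only [Fintype.card_prod, Fintype.card_bool, Fintype.card_fin]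
      ring
    rw [e1, e2] at h
    refine h.trans (le_of_eq ?_)
    ring
  let sg : Bool → ℝ := fun b => if b then 1 else -1
  let Φ : Bool × (Ix n → SignType) → Quotient (isoSetoid n) := fun t =>
    if h : ∃ (v : Fin n → ℝ × ℝ) (P : Set (ℝ × ℝ)), HasOri (sg t.1) v P ∧ sv v = t.2 then
      Quotient.mk (isoSetoid n) (visGraph h.choose h.choose_spec.choose)
    else Quotient.mk (isoSetoid n) ⊥
  have hsub : visClasses n ⊆ ↑((Finset.univ ×ˢ S).image Φ) := by
    rintro q ⟨v, P, hP, rfl⟩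
    rw [Finset.coe_image]
    obtain ⟨σ, hσ, h1, h2⟩ := oriented hP
    obtain ⟨b, hb⟩ : ∃ b, sg b = σ := by
      rcases hσ with rfl | rfl
      · exact ⟨true, by simp [sg]⟩
      · exact ⟨false, by simp [sg]⟩
    refine ⟨(b, sv v), ?_, ?_⟩
    · rw [Finset.mem_coe, Finset.mem_product]
      exact ⟨Finset.mem_univ _, Finset.mem_filter.2 ⟨Finset.mem_univ _, v, rfl⟩⟩
    · have hex : ∃ (v' : Fin n → ℝ × ℝ) (P' : Set (ℝ × ℝ)), HasOri (sg b) v' P' ∧ sv v' = sv v :=
        ⟨v, P, ⟨hP, by rw [hb]; exact h1, by rw [hb]; exact h2⟩, rfl⟩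
      have h3 : Φ (b, sv v) = Quotient.mk (isoSetoid n)
          (visGraph hex.choose hex.choose_spec.choose) := by
        simp only [Φ]
        rw [dif_pos hex]
      rw [h3]
      have h4 := hex.choose_spec.choose_spec
      have h5 := visGraph_eq (σ := σ) hσ (v := hex.choose) (P := hex.choose_spec.choose) (w := v)
        (Q := P) (by rw [← hb]; exact h4.1) ⟨hP, h1, h2⟩ h4.2
      rw [h5]
  unfold N
  have h1 := Set.ncard_le_ncard hsub (Finset.finite_toSet _)
  rw [Set.ncard_coe_finset] at h1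
  refine h1.trans (Finset.card_image_le.trans ?_)
  rw [Finset.card_product, Finset.card_univ, Fintype.card_bool]
  exact Nat.mul_le_mul_left 2 hS

end Pool.Agent.U446.Vis
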