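import Pool.Agent.U446.Vis.Family

/-!
# The graphs of the family are pairwise non-isomorphic
-/

set_option autoImplicit false

namespace Pool.Agent.U446.Vis

open Vis124 Set

/-- the number of common neighbours -/
noncomputable def cn {n : ℕ} (G : SimpleGraph (Fin n)) (u v : Fin n) : ℕ :=
  (G.neighborSet u ∩ G.neighborSet v).ncard

theorem cn_iso {n : ℕ} {G G' : SimpleGraph (Fin n)} (φ : G ≃g G') (u v : Fin n) :
    cn G' (φ u) (φ v) = cn G u v := by
  unfold cn
  rw [← Set.ncard_image_of_injective (G.neighborSet u ∩ G.neighborSet v) φ.injective]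
  congr 1
  ext w
  simp only [mem_inter_iff, SimpleGraph.mem_neighborSet, mem_image]
  constructor
  · rintro ⟨h1, h2⟩
    refine ⟨φ.symm w, ⟨?_, ?_⟩, by simp⟩
    · rw [← φ.map_adj_iff]; simpa using h1
    · rw [← φ.map_adj_iff]; simpa using h2
  · rintro ⟨x, ⟨h1, h2⟩, rfl⟩
    exact ⟨φ.map_adj_iff.2 h1, φ.map_adj_iff.2 h2⟩

/-- the last `a` vertices -/
def Tp (m M a : ℕ) : Set (Fin (2 * m + M + 1)) := {u | 2 * m + M < (u : ℕ) + a}

theorem ncard_Tp {m M a : ℕ} (ha : a ≤ M) : (Tp m M a).ncard = a := by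
  rw [← Set.ncard_image_of_injective _ Fin.val_injective]
  have : Fin.val '' Tp m M a = ↑(Finset.Ioc (2 * m + M - a) (2 * m + M)) := by
    ext x
    simp only [mem_image, Tp, mem_setOf_eq, Finset.coe_Ioc, mem_Ioc]
    constructor
    · rintro ⟨u, hu, rfl⟩
      have := u.2
      omega
    · rintro ⟨h1, h2⟩
      exact ⟨⟨x, by omega⟩, by simp only; omega, rfl⟩
  rw [this, Set.ncard_coe_finset, Nat.card_Ioc]
  omega

theorem adj_pit {m M : ℕ} {f : ℕ → ℕ} (hf : ∀ i < m, f i ≤ M) {i : ℕ} (hi : i < m)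
    {p u : Fin (2 * m + M + 1)} (hp : (p : ℕ) = 2 * i + 1) :
    (famGraph m M f).Adj p u ↔ (u : ℕ) = 2 * i ∨ (u : ℕ) = 2 * i + 2 ∨
      2 * m + M < (u : ℕ) + f i := by
  have hnc : ¬ Chain m p := by
    rw [hp]
    rintro (h | h)
    · omega
    · rw [Nat.even_add_one] at h
      exact h (even_two_mul i)
  have hfi := hf i hi
  have hu := u.2
  unfold famGraph
  rw [SimpleGraph.fromRel_adj]
  constructor
  · rintro ⟨_, ⟨h2, h3 | h3 | ⟨i', hi', h4, j, h5, h6⟩⟩ | ⟨h2, h3 | h3 | ⟨i', hi', h4, j, h5, h6⟩⟩⟩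
    · exact absurd h3.1 hnc
    · right; left; omega
    · obtain rfl : i' = i := by omega
      right; right; omega
    · exact absurd h3.2 hnc
    · left; omega
    · omega
  · intro h
    refine ⟨?_, ?_⟩
    · intro h'
      rw [← h'] at h
      omega
    · rcases h with h | h | h
      · right
        exact ⟨by omega, Or.inr (Or.inl (by omega))⟩
      · left
        exact ⟨by omega, Or.inr (Or.inl (by omega))⟩
      · left
        exact ⟨by omega, Or.inr (Or.inr ⟨i, hi, hp, (u : ℕ) - 2 * m, by omega, by omega⟩)⟩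

theorem cn_chain {m M : ℕ} {f : ℕ → ℕ} {c : Fin (2 * m + M + 1)} (hc : Chain m c) :
    M ≤ cn (famGraph m M f) c c + 1 := by
  unfold cn
  rw [inter_self]
  have h1 : Tp m M M ⊆ (famGraph m M f).neighborSet c ∪ {c} := by
    intro u hu
    by_cases h : u = c
    · right; exact h
    · left
      rw [SimpleGraph.mem_neighborSet]
      unfold famGraph
      rw [SimpleGraph.fromRel_adj]
      have hu' : Chain m u := by
        left
        have : 2 * m + M < (u : ℕ) + M := hu
        omega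
      refine ⟨Ne.symm h, ?_⟩
      rcases lt_trichotomy (c : ℕ) (u : ℕ) with h2 | h2 | h2
      · exact Or.inl ⟨h2, Or.inl ⟨hc, hu'⟩⟩
      · exact absurd (Fin.ext h2.symm) h
      · exact Or.inr ⟨h2, Or.inl ⟨hu', hc⟩⟩
  have h2 := Set.ncard_le_ncard h1 (Set.toFinite _)
  rw [ncard_Tp le_rfl] at h2
  have h3 := Set.ncard_union_le ((famGraph m M f).neighborSet c) {c}
  rw [Set.ncard_singleton] at h3
  omega

theorem cn_pit {m M : ℕ} {f : ℕ → ℕ} (hf : ∀ i < m, f i ≤ M) {i : ℕ} (hi : i < m)
    {p : Fin (2 * m + M + 1)} (hp : (p : ℕ) = 2 * i + 1) :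
    cn (famGraph m M f) p p = f i + 2 := by
  unfold cn
  rw [inter_self]
  have hfi := hf i hi
  have h1 : (famGraph m M f).neighborSet p =
      ({⟨2 * i, by omega⟩, ⟨2 * i + 2, by omega⟩} : Set (Fin (2 * m + M + 1))) ∪ Tp m M (f i) := by
    ext u
    rw [SimpleGraph.mem_neighborSet, adj_pit hf hi hp]
    simp only [mem_union, mem_insert_iff, mem_singleton_iff, Tp, mem_setOf_eq, Fin.ext_iff]
    tauto
  rw [h1, Set.ncard_union_eq _ (Set.toFinite _) (Set.toFinite _), ncard_Tp hfi, Set.ncard_pair]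
  · omega
  · intro h
    rw [Fin.ext_iff] at h
    simp at h
  · rw [Set.disjoint_left]
    rintro u (h | h) hu
    · have h2 : 2 * m + M < (u : ℕ) + f i := hu
      rw [h] at h2
      simp only at h2
      omega
    · have h2 : 2 * m + M < (u : ℕ) + f i := hu
      rw [mem_singleton_iff] at h
      rw [h] at h2
      simp only at h2
      omega

theorem cn_pit_succ {m M : ℕ} {f : ℕ → ℕ} (hf : ∀ i < m, f i ≤ M) {i : ℕ} (hi : i + 1 < m)
    {p q : Fin (2 * m + M + 1)} (hp : (p : ℕ) = 2 * i + 1) (hq : (q : ℕ) = 2 * (i + 1) + 1) :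
    cn (famGraph m M f) p q = min (f i) (f (i + 1)) + 1 := by
  unfold cn
  have hfi := hf i (by omega)
  have hfi1 := hf (i + 1) hi
  have h1 : (famGraph m M f).neighborSet p ∩ (famGraph m M f).neighborSet q =
      ({⟨2 * i + 2, by omega⟩} : Set (Fin (2 * m + M + 1))) ∪ Tp m M (min (f i) (f (i + 1))) := by
    ext u
    rw [mem_inter_iff, SimpleGraph.mem_neighborSet, SimpleGraph.mem_neighborSet,
      adj_pit hf (by omega) hp, adj_pit hf hi hq]
    simp only [mem_union, mem_singleton_iff, Tp, mem_setOf_eq, Fin.ext_iff]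
    have := u.2
    rcases min_cases (f i) (f (i + 1)) with ⟨e, h⟩ | ⟨e, h⟩ <;> rw [e] <;> constructor <;> omega
  rw [h1, Set.ncard_union_eq _ (Set.toFinite _) (Set.toFinite _), ncard_Tp (by omega),
    Set.ncard_singleton]
  · omega
  · rw [Set.disjoint_left]
    rintro u h hu
    have h2 : 2 * m + M < (u : ℕ) + min (f i) (f (i + 1)) := hu
    rw [mem_singleton_iff] at h
    rw [h] at h2
    simp only at h2
    omega

theorem cn_pit_far {m M : ℕ} {f : ℕ → ℕ} (hf : ∀ i < m, f i ≤ M) {i l : ℕ} (hil : i + 1 < l)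
    (hl : l < m) {p q : Fin (2 * m + M + 1)} (hp : (p : ℕ) = 2 * i + 1)
    (hq : (q : ℕ) = 2 * l + 1) :
    cn (famGraph m M f) p q = min (f i) (f l) := by
  unfold cn
  have hfi := hf i (by omega)
  have hfi1 := hf l hl
  have h1 : (famGraph m M f).neighborSet p ∩ (famGraph m M f).neighborSet q =
      Tp m M (min (f i) (f l)) := by
    ext u
    rw [mem_inter_iff, SimpleGraph.mem_neighborSet, SimpleGraph.mem_neighborSet,
      adj_pit hf (by omega) hp, adj_pit hf hl hq]
    simp only [Tp, mem_setOf_eq]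
    have := u.2
    rcases min_cases (f i) (f l) with ⟨e, h⟩ | ⟨e, h⟩ <;> rw [e] <;> constructor <;> omega
  rw [h1, ncard_Tp (by omega)]

theorem rigid {m M : ℕ} (hM : m + 4 ≤ M) {f g : ℕ → ℕ} (hf : ∀ i < m, f i ≤ m)
    (hg : ∀ i < m, g i ≤ m) (hf0 : f 0 = m) (hg' : ∀ i < m, i ≠ 0 → g i < m)
    (φ : famGraph m M f ≃g famGraph m M g) : ∀ i < m, f i = g i := by
  have hfM : ∀ i < m, f i ≤ M := fun i hi => (hf i hi).trans (by omega)
  have hgM : ∀ i < m, g i ≤ M := fun i hi => (hg i hi).trans (by omega)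
  -- pits go to pits
  have hpit : ∀ i < m, ∀ p : Fin (2 * m + M + 1), (p : ℕ) = 2 * i + 1 →
      ∃ l < m, ((φ p : Fin _) : ℕ) = 2 * l + 1 ∧ g l = f i := by
    intro i hi p hp
    have h1 := cn_iso φ p p
    rw [cn_pit hfM hi hp] at h1
    by_cases hc : Chain m (φ p)
    · have h2 := cn_chain (f := g) hc
      have h3 := hf i hi
      have h4 : cn (famGraph m M g) (φ p) (φ p) = f i + 2 := h1
      omega
    · unfold Chain at hc
      push Not at hc
      obtain ⟨h2, h3⟩ := hc
      obtain ⟨l, hl⟩ := Nat.not_even_iff_odd.1 h3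
      have hlm : l < m := by omega
      refine ⟨l, hlm, hl, ?_⟩
      have h4 := cn_pit hgM hlm hl
      have h5 : cn (famGraph m M g) (φ p) (φ p) = f i + 2 := h1
      omega
  have hfix : ∀ i, ∀ i' ≤ i, i' < m → ∀ p : Fin (2 * m + M + 1), (p : ℕ) = 2 * i' + 1 →
      ((φ p : Fin _) : ℕ) = 2 * i' + 1 := by
    intro i
    induction i with
    | zero =>
      intro i' hi' hm p hp
      obtain rfl : i' = 0 := by omega
      obtain ⟨l, hl, h1, h2⟩ := hpit 0 hm p hp
      rw [hf0] at h2
      by_cases hl0 : l = 0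
      · rw [h1, hl0]
      · have := hg' l hl hl0
        omega
    | succ i ih =>
      intro i' hi' hm p hp
      rcases Nat.lt_or_ge i' (i + 1) with h | h
      · exact ih i' (by omega) hm p hp
      · obtain rfl : i' = i + 1 := by omega
        obtain ⟨l, hl, h1, h2⟩ := hpit (i + 1) hm p hp
        -- l > i
        have hli : i < l := by
          by_contra hc
          have h3 := ih l (by omega) hl ⟨2 * l + 1, by omega⟩ rfl
          have h4 : φ p = φ ⟨2 * l + 1, by omega⟩ := Fin.ext (h1.trans h3.symm)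
          have h5 := φ.injective h4
          rw [h5] at hp
          simp only at hp
          omega
        -- the previous pit
        have h3 := ih i le_rfl (by omega) ⟨2 * i + 1, by omega⟩ rfl
        obtain ⟨l', hl', h6, h7⟩ := hpit i (by omega) ⟨2 * i + 1, by omega⟩ rfl
        have hl'i : l' = i := by omega
        rw [hl'i] at h7
        have h8 := cn_iso φ ⟨2 * i + 1, by omega⟩ p
        rw [cn_pit_succ hfM hm rfl hp] at h8
        rcases Nat.lt_or_ge (i + 1) l with h9 | h9
        · rw [cn_pit_far hgM h9 hl h3 h1, h7, h2] at h8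
          omega
        · have : l = i + 1 := by omega
          rw [h1, this]
  intro i hi
  obtain ⟨l, hl, h1, h2⟩ := hpit i hi ⟨2 * i + 1, by omega⟩ rfl
  have h3 := hfix i i le_rfl hi ⟨2 * i + 1, by omega⟩ rfl
  have : l = i := by omega
  rw [this] at h2
  exact h2.symm

/-- the function given by a permutation -/
def fperm (k : ℕ) (σ : Equiv.Perm (Fin k)) (i : ℕ) : ℕ :=
  if i = 0 then k + 1 else if h : i - 1 < k then (σ ⟨i - 1, h⟩ : ℕ) + 1 else 1

theorem visClassesGP_finite (n : ℕ) : (visClassesGP n).Finite := Set.toFinite _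

theorem factorial_le_NGP {k M : ℕ} (hM : k + 5 ≤ M) :
    k.factorial ≤ NGP (2 * (k + 1) + M + 1) := by
  have hb : ∀ σ : Equiv.Perm (Fin k), ∀ i < k + 1, fperm k σ i ≤ k + 1 := by
    intro σ i _
    unfold fperm
    split_ifs with h1 h2
    · exact le_rfl
    · have := (σ ⟨i - 1, h2⟩).2
      omega
    · omega
  have hb' : ∀ σ : Equiv.Perm (Fin k), ∀ i < k + 1, i ≠ 0 → fperm k σ i < k + 1 := by
    intro σ i hi h1
    unfold fperm
    rw [if_neg h1]
    split_ifs with h2
    · have := (σ ⟨i - 1, h2⟩).2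
      omega
    · omega
  let F : Equiv.Perm (Fin k) → Quotient (isoSetoid (2 * (k + 1) + M + 1)) := fun σ =>
    Quotient.mk (isoSetoid _) (famGraph (k + 1) M (fperm k σ))
  have hF : Function.Injective F := by
    intro σ τ h
    have h1 := Quotient.exact h
    obtain ⟨φ⟩ := h1
    have h2 := rigid (by omega) (hb σ) (hb τ) (by simp [fperm]) (hb' τ) φ
    ext x
    have h3 := h2 (x + 1) (by omega)
    unfold fperm at h3
    have e : (x : ℕ) + 1 - 1 = x := by omega
    simp only [Nat.add_one_ne_zero, if_false, e, x.2, dif_pos, Fin.eta] at h3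
    omega
  have hsub : Set.range F ⊆ visClassesGP (2 * (k + 1) + M + 1) := by
    rintro _ ⟨σ, rfl⟩
    exact famGraph_mem (by omega) (by omega) (hb σ)
  have h1 := Set.ncard_le_ncard hsub (visClassesGP_finite _)
  have h2 : (Set.range F).ncard = k.factorial := by
    rw [← Set.image_univ, Set.ncard_image_of_injective _ hF, Set.ncard_univ,
      Nat.card_eq_fintype_card, Fintype.card_perm, Fintype.card_fin]
  rw [h2] at h1
  exact h1

theorem NGP_le_N (n : ℕ) : NGP n ≤ N n := by
  apply Set.ncard_le_ncard _ (Set.toFinite _)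
  rintro q ⟨v, P, h1, _, h2⟩
  exact ⟨v, P, h1, h2⟩

end Pool.Agent.U446.Vis
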