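import Pool.Agent.U446.Vis.Terrain

/-!
# A family of terrain polygons with many different visibility graphs
-/

set_option autoImplicit false

namespace Pool.Agent.U446.Vis

open Vis124 Set

/-- the defect of three points: it is nonnegative iff the middle point is not above the segment -/
def Dl (y : ℕ → ℝ) (i j k : ℕ) : ℝ :=
  ((k : ℝ) - j) * y i + ((j : ℝ) - i) * y k - ((k : ℝ) - i) * y j

/-- the visibility criterion -/
def Vis (y : ℕ → ℝ) (i k : ℕ) : Prop := ∀ j, i < j → j < k → 0 ≤ Dl y i j k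

theorem segment_sub_iff {y : ℕ → ℝ} {N : ℕ} (hB : Below y N) (hN : 2 ≤ N) {i k : ℕ} (hik : i < k)
    (hk : k ≤ N) : segment ℝ ((i : ℝ), y i) ((k : ℝ), y k) ⊆ reg y N ↔ Vis y i k := by
  rw [visible_iff hB hN hik hk]
  unfold Vis Dl
  refine forall_congr' fun j => forall_congr' fun _ => forall_congr' fun _ => ?_
  constructor <;> intro h <;> linarith

/-- three points on a convex sequence -/
theorem conv3 (G : ℕ → ℝ) (h : ∀ k, 2 * G (k + 1) ≤ G k + G (k + 2)) {i j k : ℕ} (hij : i ≤ j)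
    (hjk : j ≤ k) : 0 ≤ Dl G i j k := by
  have hmono : Monotone fun n => G (n + 1) - G n := by
    apply monotone_nat_of_le_succ
    intro n
    have := h n
    have e : n + 1 + 1 = n + 2 := rfl
    rw [e]
    linarith
  have hA : ∀ p : ℕ, G (i + p) - G i ≤ p * (G (i + p + 1) - G (i + p)) := by
    intro p
    induction p with
    | zero => simp
    | succ p ih =>
      have h1 := hmono (show i + p ≤ i + (p + 1) by omega)
      simp only at h1
      have h2 : ((p : ℝ) + 1) * (G (i + p + 1) - G (i + p)) ≤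
          ((p : ℝ) + 1) * (G (i + (p + 1) + 1) - G (i + (p + 1))) :=
        mul_le_mul_of_nonneg_left h1 (by positivity)
      have e : i + (p + 1) = i + p + 1 := rfl
      push_cast
      rw [e] at h2 ⊢
      linarith
  have hBB : ∀ q : ℕ, q * (G (j + 1) - G j) ≤ G (j + q) - G j := by
    intro q
    induction q with
    | zero => simp
    | succ q ih =>
      have h1 := hmono (show j ≤ j + q by omega)
      simp only at h1
      have e : j + (q + 1) = j + q + 1 := rfl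
      push_cast
      rw [e]
      linarith
  obtain ⟨p, rfl⟩ := Nat.exists_eq_add_of_le hij
  obtain ⟨q, rfl⟩ := Nat.exists_eq_add_of_le hjk
  have h1 := mul_le_mul_of_nonneg_left (hA p) (Nat.cast_nonneg (α := ℝ) q)
  have h2 := mul_le_mul_of_nonneg_left (hBB q) (Nat.cast_nonneg (α := ℝ) p)
  unfold Dl
  push_cast
  have e : (i : ℝ) + p + q - (i + p) = q := by ring
  have e' : (i : ℝ) + p - i = p := by ring
  have e'' : (i : ℝ) + p + q - i = p + q := by ring
  rw [e, e', e'']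
  linarith

/-- the vertices on the convex chain -/
def Chain (m k : ℕ) : Prop := 2 * m ≤ k ∨ Even k

/-- the convex upper function -/
noncomputable def Gf (m : ℕ) (K : ℝ) (k : ℕ) : ℝ :=
  if 2 * m ≤ k then (m : ℝ) ^ 2 + K * ((k : ℝ) - 2 * m) ^ 2
  else if Even k then (k : ℝ) ^ 2 / 4 else ((k : ℝ) ^ 2 + 1) / 4

theorem Gf_ge {m : ℕ} {K : ℝ} {k : ℕ} (h : 2 * m ≤ k) :
    Gf m K k = (m : ℝ) ^ 2 + K * ((k : ℝ) - 2 * m) ^ 2 := if_pos h

theorem Gf_even {m : ℕ} {K : ℝ} {k : ℕ} (h : k ≤ 2 * m) (hk : Even k) :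
    Gf m K k = (k : ℝ) ^ 2 / 4 := by
  rcases eq_or_lt_of_le h with h1 | h1
  · rw [Gf_ge h1.ge, h1]
    push_cast
    ring
  · rw [Gf, if_neg (by omega), if_pos hk]

theorem Gf_odd {m : ℕ} {K : ℝ} {k : ℕ} (h : k < 2 * m) (hk : ¬ Even k) :
    Gf m K k = ((k : ℝ) ^ 2 + 1) / 4 := by
  rw [Gf, if_neg (by omega), if_neg hk]

theorem Gf_convex {m : ℕ} {K : ℝ} (hK : (m : ℝ) ≤ K) (k : ℕ) :
    2 * Gf m K (k + 1) ≤ Gf m K k + Gf m K (k + 2) := by
  have hK0 : 0 ≤ K := le_trans (Nat.cast_nonneg m) hK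
  rcases lt_trichotomy (k + 1) (2 * m) with h | h | h
  · by_cases hk : Even k
    · have h1 : ¬ Even (k + 1) := by rw [Nat.even_add_one]; exact not_not.2 hk
      have h2 : Even (k + 2) := by
        rw [Nat.even_add]; exact ⟨fun _ => even_two, fun _ => hk⟩
      rw [Gf_odd h h1, Gf_even (by omega) hk, Gf_even (by omega) h2]
      push_cast
      apply le_of_eq
      ring
    · have h1 : Even (k + 1) := by rw [Nat.even_add_one]; exact hk
      have h2 : ¬ Even (k + 2) := by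
        rw [Nat.even_add]; intro h3; exact hk (h3.2 even_two)
      have h3 : k + 2 < 2 * m := by
        rcases Nat.lt_or_ge (k + 2) (2 * m) with h3 | h3
        · exact h3
        · exfalso
          apply h2
          have : k + 2 = 2 * m := by omega
          rw [this]
          exact even_two_mul m
      rw [Gf_even (by omega) h1, Gf_odd (by omega) hk, Gf_odd h3 h2]
      push_cast
      nlinarith
  · have hk : ¬ Even k := by
      intro hk
      have : Even (k + 1) := by rw [h]; exact even_two_mul m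
      rw [Nat.even_add_one] at this
      exact this hk
    rw [Gf_ge h.ge, Gf_odd (by omega) hk, Gf_ge (by omega)]
    have e : (k : ℝ) + 1 = 2 * m := by exact_mod_cast h
    have e1 : (k : ℝ) = 2 * m - 1 := by linarith
    push_cast
    rw [e1]
    nlinarith
  · rw [Gf_ge (by omega), Gf_ge (by omega), Gf_ge (by omega)]
    push_cast
    nlinarith

/-- the hypotheses on the heights -/
structure Hyp (m M : ℕ) (f : ℕ → ℕ) (K : ℝ) (s : ℕ → ℝ) (y : ℕ → ℝ) : Prop where
  m_pos : 0 < m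
  K_ge : (m : ℝ) ≤ K
  f_le : ∀ i < m, f i ≤ M
  even : ∀ i ≤ m, y (2 * i) = (i : ℝ) ^ 2
  top : ∀ j, y (2 * m + j) = (m : ℝ) ^ 2 + K * (j : ℝ) ^ 2
  odd : ∀ i < m, y (2 * i + 1) = ((i : ℝ) + 1) ^ 2 - s i
  s_ge : ∀ i < m, 2 * (m : ℝ) ≤ s i
  s_gt : ∀ i < m, ∀ j, 1 ≤ j → j + f i ≤ M →
    (m : ℝ) ^ 2 + K * (j : ℝ) ^ 2 - ((i : ℝ) + 1) ^ 2 < (2 * (m : ℝ) + j - 2 * (i + 1)) * s i
  s_lt : ∀ i < m, ∀ j, M < j + f i →
    (2 * (m : ℝ) + j - 2 * (i + 1)) * s i < (m : ℝ) ^ 2 + K * (j : ℝ) ^ 2 - ((i : ℝ) + 1) ^ 2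

section

variable {m M : ℕ} {f : ℕ → ℕ} {K : ℝ} {s : ℕ → ℝ} {y : ℕ → ℝ} (H : Hyp m M f K s y)
include H

theorem Hyp.eq_chain {k : ℕ} (hk : Chain m k) : y k = Gf m K k := by
  by_cases h : 2 * m ≤ k
  · obtain ⟨j, rfl⟩ := Nat.exists_eq_add_of_le h
    rw [H.top, Gf_ge h]
    push_cast
    ring
  · rcases hk with hk | hk
    · exact absurd hk h
    · rw [Gf_even (by omega) hk]
      obtain ⟨i, rfl⟩ := hk
      have : i + i = 2 * i := by ring
      rw [this, H.even i (by omega)]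
      push_cast
      ring

theorem Hyp.odd_cases {k : ℕ} (hk : ¬ Chain m k) : ∃ i < m, k = 2 * i + 1 := by
  unfold Chain at hk
  push Not at hk
  obtain ⟨h1, h2⟩ := hk
  obtain ⟨i, rfl⟩ := Nat.not_even_iff_odd.1 h2
  exact ⟨i, by omega, rfl⟩

theorem Hyp.le_G (k : ℕ) : y k ≤ Gf m K k := by
  by_cases hk : Chain m k
  · exact (H.eq_chain hk).le
  · obtain ⟨i, hi, rfl⟩ := H.odd_cases hk
    rw [H.odd i hi, Gf_odd (by omega) (by
      rw [Nat.even_add_one]; exact not_not.2 (even_two_mul i))]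
    have := H.s_ge i hi
    have hi' : (i : ℝ) + 1 ≤ m := by exact_mod_cast hi
    push_cast
    nlinarith

theorem Hyp.chain_vis {u v : ℕ} (hu : Chain m u) (hv : Chain m v) : Vis y u v := by
  intro j h1 h2
  have h3 := conv3 (Gf m K) (Gf_convex H.K_ge) h1.le h2.le
  unfold Dl at h3 ⊢
  rw [H.eq_chain hu, H.eq_chain hv]
  have h4 := H.le_G j
  have h5 : (0 : ℝ) ≤ (v : ℝ) - u := by
    have : (u : ℝ) ≤ v := by exact_mod_cast (h1.trans h2).le
    linarith
  have := mul_le_mul_of_nonneg_left h4 h5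
  linarith

theorem Hyp.lt_sq {u i : ℕ} (hi : i ≤ m) (hu : u < 2 * i) : y u < (i : ℝ) ^ 2 := by
  have hm : (0 : ℝ) < m := by exact_mod_cast H.m_pos
  by_cases hk : Chain m u
  · rcases hk with hk | ⟨l, hl⟩
    · omega
    · have e : u = 2 * l := by omega
      rw [e, H.even l (by omega)]
      have : (l : ℝ) + 1 ≤ i := by
        have : l + 1 ≤ i := by omega
        exact_mod_cast this
      have : (0 : ℝ) ≤ l := Nat.cast_nonneg l
      nlinarith
  · obtain ⟨l, hl, rfl⟩ := H.odd_cases hk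
    rw [H.odd l hl]
    have h1 : (l : ℝ) + 1 ≤ i := by
      have : l + 1 ≤ i := by omega
      exact_mod_cast this
    have := H.s_ge l hl
    have : (0 : ℝ) ≤ l := Nat.cast_nonneg l
    nlinarith

/-- nothing sees a pit from the left except its left neighbour -/
theorem Hyp.pit_left {u i : ℕ} (hi : i < m) (hu : u < 2 * i) : ¬ Vis y u (2 * i + 1) := by
  intro h
  have h1 := h (2 * i) hu (by omega)
  unfold Dl at h1
  have h2 := H.lt_sq hi.le hu
  have h3 : y (2 * i + 1) < (i : ℝ) ^ 2 := by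
    rw [H.odd i hi]
    have := H.s_ge i hi
    have : (i : ℝ) + 1 ≤ m := by exact_mod_cast hi
    nlinarith
  rw [H.even i hi.le] at h1
  have h4 : (u : ℝ) < 2 * i := by exact_mod_cast hu
  push_cast at h1
  nlinarith [mul_lt_mul_of_pos_left h3 (show (0 : ℝ) < 2 * i - u by linarith)]

/-- a pit does not see the vertices of the lower chain to the right, except its neighbour -/
theorem Hyp.pit_right {i k : ℕ} (hik : i + 2 ≤ k) (hk : k ≤ m) : ¬ Vis y (2 * i + 1) (2 * k) := by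
  intro h
  have h1 := h (2 * (i + 1)) (by omega) (by omega)
  unfold Dl at h1
  rw [H.even (i + 1) (by omega), H.even k hk, H.odd i (by omega)] at h1
  have h2 := H.s_ge i (by omega)
  have h3 : (i : ℝ) + 2 ≤ k := by exact_mod_cast hik
  have h4 : (k : ℝ) ≤ m := by exact_mod_cast hk
  push_cast at h1
  have h5 : (2 * (k : ℝ) - 2 * i - 2) * s i ≥ (2 * (k : ℝ) - 2 * i - 2) * (2 * m) :=
    mul_le_mul_of_nonneg_left h2 (by linarith)
  nlinarith

/-- a pit sees only the top vertices with a large index -/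
theorem Hyp.pit_top {i j : ℕ} (hi : i < m) (hj : 1 ≤ j) (hjf : j + f i ≤ M) :
    ¬ Vis y (2 * i + 1) (2 * m + j) := by
  intro h
  have h1 := h (2 * (i + 1)) (by omega) (by omega)
  unfold Dl at h1
  rw [H.even (i + 1) (by omega), H.top, H.odd i (by omega)] at h1
  have h2 := H.s_gt i hi j hj hjf
  push_cast at h1
  nlinarith

theorem Hyp.pit_sees {i j : ℕ} (hi : i < m) (hj : 1 ≤ j) (hjf : M < j + f i) :
    Vis y (2 * i + 1) (2 * m + j) := by
  intro k h1 h2
  have hs := H.s_lt i hi j hjf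
  -- the neighbour is below the segment
  have key : 0 ≤ Dl y (2 * i + 1) (2 * (i + 1)) (2 * m + j) := by
    unfold Dl
    rw [H.even (i + 1) (by omega), H.top, H.odd i (by omega)]
    push_cast
    nlinarith
  rcases eq_or_lt_of_le (show 2 * (i + 1) ≤ k by omega) with h3 | h3
  · rw [← h3]; exact key
  · have h4 := H.chain_vis (u := 2 * (i + 1)) (v := 2 * m + j) (Or.inr (even_two_mul _))
      (Or.inl (by omega)) k h3 h2
    unfold Dl at key h4 ⊢
    set ya := y (2 * i + 1)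
    set yb := y (2 * (i + 1))
    set yk := y k
    set yt := y (2 * m + j)
    push_cast at key h4 ⊢
    have c1 : 2 * ((i : ℝ) + 1) < k := by exact_mod_cast h3
    have c2 : (k : ℝ) < 2 * m + j := by exact_mod_cast h2
    -- (T - B) * Dl(A,k,T) = (T - A) * Dl(B,k,T) + (T - k) * Dl(A,B,T)
    have hTB : (0 : ℝ) < 2 * m + j - 2 * (i + 1) := by linarith
    have e : (2 * (m : ℝ) + j - 2 * (i + 1)) *
        ((2 * (m : ℝ) + j - k) * ya + (k - (2 * i + 1)) * yt - (2 * m + j - (2 * i + 1)) * yk) =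
        (2 * (m : ℝ) + j - (2 * i + 1)) *
          ((2 * (m : ℝ) + j - k) * yb + (k - 2 * (i + 1)) * yt - (2 * m + j - 2 * (i + 1)) * yk) +
        (2 * (m : ℝ) + j - k) * ((2 * (m : ℝ) + j - 2 * (i + 1)) * ya +
          (2 * (i + 1) - (2 * i + 1)) * yt - (2 * m + j - (2 * i + 1)) * yb) := by
      ring
    have h5 : 0 ≤ (2 * (m : ℝ) + j - 2 * (i + 1)) *
        ((2 * (m : ℝ) + j - k) * ya + (k - (2 * i + 1)) * yt - (2 * m + j - (2 * i + 1)) * yk) := by
      rw [e]
      apply add_nonneg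
      · exact mul_nonneg (by linarith) h4
      · exact mul_nonneg (by linarith) key
    exact nonneg_of_mul_nonneg_right h5 hTB

/-- the whole visibility relation -/
theorem Hyp.vis_iff {u v : ℕ} (huv : u < v) :
    Vis y u v ↔ (Chain m u ∧ Chain m v) ∨ v = u + 1 ∨
      (∃ i < m, u = 2 * i + 1 ∧ ∃ j, v = 2 * m + j ∧ M < j + f i) := by
  constructor
  · intro h
    by_cases hv : Chain m v
    · by_cases hu : Chain m u
      · exact Or.inl ⟨hu, hv⟩
      · right
        by_cases h1 : v = u + 1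
        · exact Or.inl h1
        right
        obtain ⟨i, hi, rfl⟩ := H.odd_cases hu
        refine ⟨i, hi, rfl, ?_⟩
        rcases Nat.lt_or_ge (2 * m) v with hv2 | hv2
        · obtain ⟨j, rfl⟩ := Nat.exists_eq_add_of_le hv2.le
          refine ⟨j, rfl, ?_⟩
          by_contra hc
          exact H.pit_top hi (by omega) (by omega) h
        · exfalso
          have hev : Even v := by
            rcases hv with hv | hv
            · have : v = 2 * m := by omega
              rw [this]; exact even_two_mul m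
            · exact hv
          obtain ⟨k, hk⟩ := hev
          obtain rfl : v = 2 * k := by omega
          exact H.pit_right (i := i) (k := k) (by omega) (by omega) h
    · obtain ⟨i, hi, rfl⟩ := H.odd_cases hv
      right; left
      by_contra hc
      exact H.pit_left hi (by omega) h
  · rintro (⟨h1, h2⟩ | h | ⟨i, hi, rfl, j, rfl, hj⟩)
    · exact H.chain_vis h1 h2
    · intro j h1 h2
      omega
    · apply H.pit_sees hi _ hj
      have := H.f_le i hi
      omega

theorem Hyp.le_quarter {j : ℕ} (hj : j ≤ 2 * m) : y j ≤ (j : ℝ) ^ 2 / 4 := by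
  by_cases hk : Chain m j
  · have he : Even j := by
      rcases hk with hk | hk
      · have : j = 2 * m := by omega
        rw [this]; exact even_two_mul m
      · exact hk
    rw [H.eq_chain hk, Gf_even hj he]
  · obtain ⟨i, hi, rfl⟩ := H.odd_cases hk
    rw [H.odd i hi]
    have := H.s_ge i hi
    have : (i : ℝ) + 1 ≤ m := by exact_mod_cast hi
    push_cast
    nlinarith

theorem Hyp.below {N : ℕ} (hN : N = 2 * m + M) (hM : 0 < M) : Below y N := by
  intro j h0 h1
  subst hN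
  have hm : (1 : ℝ) ≤ m := by exact_mod_cast H.m_pos
  have hM' : (1 : ℝ) ≤ M := by exact_mod_cast hM
  have hK1 := H.K_ge
  have hK0 : 0 < K := by linarith
  have h00 : y 0 = 0 := by
    have := H.even 0 (by omega)
    simpa using this
  have hNN := H.top M
  rw [h00, hNN]
  have hj0 : (0 : ℝ) < j := by exact_mod_cast h0
  have hj1 : (j : ℝ) < 2 * m + M := by exact_mod_cast h1
  push_cast
  rw [mul_zero, zero_add]
  rcases Nat.lt_or_ge (2 * m) j with hj | hj
  · obtain ⟨p, rfl⟩ := Nat.exists_eq_add_of_le hj.le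
    rw [H.top p]
    have hp : (1 : ℝ) ≤ p := by
      have : 1 ≤ p := by omega
      exact_mod_cast this
    push_cast at *
    have hpM : (0 : ℝ) < M - p := by linarith
    have e : (2 * (m : ℝ) + p) * ((m : ℝ) ^ 2 + K * (M : ℝ) ^ 2) -
        (2 * (m : ℝ) + M) * ((m : ℝ) ^ 2 + K * (p : ℝ) ^ 2) =
        ((M : ℝ) - p) * (2 * m * K * (M + p) + K * p * M - m ^ 2) := by ring
    have h5 : 0 < 2 * (m : ℝ) * K * (M + p) + K * p * M - m ^ 2 := by
      have h6 : (m : ℝ) ^ 2 ≤ m * K := by nlinarith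
      have h7 : (m : ℝ) * K * 1 ≤ m * K * (M + p) :=
        mul_le_mul_of_nonneg_left (by linarith) (by positivity)
      have h8 : 0 < K * p * M := by positivity
      have h9 : 0 < (m : ℝ) * K := by positivity
      nlinarith
    have := mul_pos hpM h5
    linarith
  · have h4 := H.le_quarter hj
    have hj2 : (j : ℝ) ≤ 2 * m := by exact_mod_cast hj
    have h5 : (j : ℝ) ^ 2 / 4 ≤ j * (m / 2) := by nlinarith
    have h6 : (2 * (m : ℝ) + M) * y j ≤ (2 * (m : ℝ) + M) * (j * (m / 2)) :=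
      mul_le_mul_of_nonneg_left (h4.trans h5) (by positivity)
    have h7 : (2 * (m : ℝ) + M) * (m / 2) < (m : ℝ) ^ 2 + K * (M : ℝ) ^ 2 := by
      have : (M : ℝ) * m ≤ K * (M : ℝ) ^ 2 := by
        have : (M : ℝ) * m ≤ M * K := mul_le_mul_of_nonneg_left hK1 (by positivity)
        have : (M : ℝ) * K * 1 ≤ M * K * M := mul_le_mul_of_nonneg_left hM' (by positivity)
        nlinarith
      have : 0 < (M : ℝ) * m := by positivity
      nlinarith
    have := mul_lt_mul_of_pos_left h7 hj0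
    linarith

end

/-! ### Existence of heights -/

/-- the slope of the edge to the left of the `I`-th vertex -/
noncomputable def slp (m : ℕ) (K : ℝ) (I X : ℝ) : ℝ :=
  ((m : ℝ) ^ 2 - I ^ 2 + K * X ^ 2) / (2 * ((m : ℝ) - I) + X)

/-- the heights -/
noncomputable def hgt (m M : ℕ) (f : ℕ → ℕ) (K : ℝ) (k : ℕ) : ℝ :=
  if 2 * m ≤ k then (m : ℝ) ^ 2 + K * ((k : ℝ) - 2 * m) ^ 2
  else if Even k then (k : ℝ) ^ 2 / 4
  else ((k : ℝ) + 1) ^ 2 / 4 - slp m K ((k / 2 : ℕ) + 1) ((M : ℝ) - f (k / 2) + 1 / 2)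

theorem hyp_hgt {m M : ℕ} {f : ℕ → ℕ} (hm : 0 < m) (hmM : m ≤ M) (hf : ∀ i < m, f i ≤ m) :
    Hyp m M f (20 * (m : ℝ) ^ 2)
      (fun i => slp m (20 * (m : ℝ) ^ 2) ((i : ℝ) + 1) ((M : ℝ) - f i + 1 / 2))
      (hgt m M f (20 * (m : ℝ) ^ 2)) := by
  have hm1 : (1 : ℝ) ≤ m := by exact_mod_cast hm
  have hX : ∀ i < m, (1 / 2 : ℝ) ≤ (M : ℝ) - f i + 1 / 2 := by
    intro i hi
    have : (f i : ℝ) ≤ M := by exact_mod_cast (hf i hi).trans hmM
    linarith
  have hI : ∀ i < m, (i : ℝ) + 1 ≤ m := fun i hi => by exact_mod_cast hi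
  refine ⟨hm, by nlinarith, fun i hi => (hf i hi).trans hmM, ?_, ?_, ?_, ?_, ?_, ?_⟩
  · intro i hi
    unfold hgt
    by_cases h : 2 * m ≤ 2 * i
    · have : i = m := by omega
      subst this
      rw [if_pos h]
      push_cast
      ring
    · rw [if_neg h, if_pos (even_two_mul i)]
      push_cast
      ring
  · intro j
    unfold hgt
    rw [if_pos (by omega)]
    push_cast
    ring
  · intro i hi
    unfold hgt
    rw [if_neg (by omega), if_neg (by
      rw [Nat.even_add_one]; exact not_not.2 (even_two_mul i))]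
    have : (2 * i + 1) / 2 = i := by omega
    rw [this]
    push_cast
    ring
  · intro i hi
    have h1 := hX i hi
    have h2 := hI i hi
    simp only [slp]
    set X : ℝ := (M : ℝ) - f i + 1 / 2
    have hi0 : (0 : ℝ) ≤ i := Nat.cast_nonneg i
    rw [le_div_iff₀ (by linarith)]
    have h3 : 2 * ((m : ℝ) - (i + 1)) ≤ 2 * m := by linarith
    have h4 : 0 ≤ (m : ℝ) ^ 2 - ((i : ℝ) + 1) ^ 2 := by nlinarith
    have h5 : 2 * (m : ℝ) * (2 * ((m : ℝ) - (i + 1)) + X) ≤ 2 * m * (2 * m + X) :=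
      mul_le_mul_of_nonneg_left (by linarith) (by linarith)
    have h6 : 2 * (m : ℝ) * (2 * m + X) ≤ 20 * (m : ℝ) ^ 2 * X ^ 2 := by
      have h7 : (1 / 4 : ℝ) ≤ X ^ 2 := by nlinarith
      have h8 : (1 / 2 : ℝ) * X ≤ X ^ 2 := by nlinarith
      have h9 : 16 * (m : ℝ) ^ 2 * (1 / 4) ≤ 16 * (m : ℝ) ^ 2 * X ^ 2 :=
        mul_le_mul_of_nonneg_left h7 (by positivity)
      have h10 : 4 * (m : ℝ) ^ 2 * ((1 / 2 : ℝ) * X) ≤ 4 * (m : ℝ) ^ 2 * X ^ 2 :=
        mul_le_mul_of_nonneg_left h8 (by positivity)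
      have h11 : 2 * (m : ℝ) * X ≤ 2 * (m : ℝ) ^ 2 * X := by
        have : (m : ℝ) ≤ m ^ 2 := by nlinarith
        nlinarith
      nlinarith
    linarith
  · intro i hi j hj hjf
    have h1 := hX i hi
    have h2 := hI i hi
    have hj1 : (1 : ℝ) ≤ j := by exact_mod_cast hj
    have hjX : (j : ℝ) < (M : ℝ) - f i + 1 / 2 := by
      have : (j : ℝ) + f i ≤ M := by exact_mod_cast hjf
      linarith
    simp only [slp]
    set X : ℝ := (M : ℝ) - f i + 1 / 2
    have hi0 : (0 : ℝ) ≤ i := Nat.cast_nonneg i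
    have hden : 0 < 2 * ((m : ℝ) - (i + 1)) + X := by linarith
    rw [← mul_div_assoc, lt_div_iff₀ hden]
    have h4 : (m : ℝ) ^ 2 - ((i : ℝ) + 1) ^ 2 ≤ m ^ 2 := by nlinarith
    have hd : 0 ≤ 2 * ((m : ℝ) - (i + 1)) := by linarith
    have e : (2 * (m : ℝ) + j - 2 * (i + 1)) * ((m : ℝ) ^ 2 - ((i : ℝ) + 1) ^ 2 +
          20 * (m : ℝ) ^ 2 * X ^ 2) -
        ((m : ℝ) ^ 2 + 20 * (m : ℝ) ^ 2 * (j : ℝ) ^ 2 - ((i : ℝ) + 1) ^ 2) *
          (2 * ((m : ℝ) - (i + 1)) + X) =
        (X - j) * (2 * ((m : ℝ) - (i + 1)) * (20 * (m : ℝ) ^ 2) * (X + j) +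
          (20 * (m : ℝ) ^ 2 * (j * X) - ((m : ℝ) ^ 2 - ((i : ℝ) + 1) ^ 2))) := by ring
    have h5 : 0 ≤ 2 * ((m : ℝ) - (i + 1)) * (20 * (m : ℝ) ^ 2) * (X + j) :=
      mul_nonneg (mul_nonneg hd (by positivity)) (by linarith)
    have h6 : (1 : ℝ) ≤ j * X := by nlinarith
    have h7 : 20 * (m : ℝ) ^ 2 * 1 ≤ 20 * (m : ℝ) ^ 2 * (j * X) :=
      mul_le_mul_of_nonneg_left h6 (by positivity)
    have h8 : (0 : ℝ) < (m : ℝ) ^ 2 := by positivity
    have := mul_pos (show 0 < X - j by linarith)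
      (show 0 < 2 * ((m : ℝ) - (i + 1)) * (20 * (m : ℝ) ^ 2) * (X + j) +
          (20 * (m : ℝ) ^ 2 * (j * X) - ((m : ℝ) ^ 2 - ((i : ℝ) + 1) ^ 2)) by linarith)
    linarith
  · intro i hi j hjf
    have h1 := hX i hi
    have h2 := hI i hi
    have hfi := hf i hi
    have hj1 : (1 : ℝ) ≤ j := by
      have : 1 ≤ j := by omega
      exact_mod_cast this
    have hjX : (M : ℝ) - f i + 1 / 2 < j := by
      have : (M : ℝ) + 1 ≤ j + f i := by exact_mod_cast hjf
      linarith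
    simp only [slp]
    set X : ℝ := (M : ℝ) - f i + 1 / 2
    have hi0 : (0 : ℝ) ≤ i := Nat.cast_nonneg i
    have hden : 0 < 2 * ((m : ℝ) - (i + 1)) + X := by linarith
    rw [← mul_div_assoc, div_lt_iff₀ hden]
    have h4 : (m : ℝ) ^ 2 - ((i : ℝ) + 1) ^ 2 ≤ m ^ 2 := by nlinarith
    have hd : 0 ≤ 2 * ((m : ℝ) - (i + 1)) := by linarith
    have e : ((m : ℝ) ^ 2 + 20 * (m : ℝ) ^ 2 * (j : ℝ) ^ 2 - ((i : ℝ) + 1) ^ 2) *
          (2 * ((m : ℝ) - (i + 1)) + X) -
        (2 * (m : ℝ) + j - 2 * (i + 1)) * ((m : ℝ) ^ 2 - ((i : ℝ) + 1) ^ 2 +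
          20 * (m : ℝ) ^ 2 * X ^ 2) =
        (j - X) * (2 * ((m : ℝ) - (i + 1)) * (20 * (m : ℝ) ^ 2) * (X + j) +
          (20 * (m : ℝ) ^ 2 * (j * X) - ((m : ℝ) ^ 2 - ((i : ℝ) + 1) ^ 2))) := by ring
    have h5 : 0 ≤ 2 * ((m : ℝ) - (i + 1)) * (20 * (m : ℝ) ^ 2) * (X + j) :=
      mul_nonneg (mul_nonneg hd (by positivity)) (by linarith)
    have h6 : (1 / 2 : ℝ) ≤ j * X := by nlinarith
    have h7 : 20 * (m : ℝ) ^ 2 * (1 / 2) ≤ 20 * (m : ℝ) ^ 2 * (j * X) :=
      mul_le_mul_of_nonneg_left h6 (by positivity)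
    have h8 : (0 : ℝ) < (m : ℝ) ^ 2 := by positivity
    have := mul_pos (show 0 < j - X by linarith)
      (show 0 < 2 * ((m : ℝ) - (i + 1)) * (20 * (m : ℝ) ^ 2) * (X + j) +
          (20 * (m : ℝ) ^ 2 * (j * X) - ((m : ℝ) ^ 2 - ((i : ℝ) + 1) ^ 2)) by linarith)
    linarith

/-! ### Perturbation to general position -/

theorem Dl_add (y : ℕ → ℝ) (ε : ℝ) (i j k : ℕ) : Dl (fun l => y l + ε * (l : ℝ) ^ 2) i j k =
    Dl y i j k + ε * (((k : ℝ) - i) * (k - j) * (j - i)) := by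
  unfold Dl
  ring

theorem perturb (y : ℕ → ℝ) (N : ℕ) : ∃ z : ℕ → ℝ, ∀ i j k, i < j → j < k → k ≤ N →
    Dl z i j k ≠ 0 ∧ (0 ≤ Dl y i j k → 0 < Dl z i j k) ∧ (Dl y i j k < 0 → Dl z i j k < 0) := by
  have h : ∀ᶠ ε in nhdsWithin (0 : ℝ) (Ioi 0), ∀ i ∈ Finset.range (N + 1),
      ∀ j ∈ Finset.range (N + 1), ∀ k ∈ Finset.range (N + 1),
      Dl y i j k < 0 → Dl (fun l => y l + ε * (l : ℝ) ^ 2) i j k < 0 := by
    rw [Filter.eventually_all_finset]
    intro i _
    rw [Filter.eventually_all_finset]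
    intro j _
    rw [Filter.eventually_all_finset]
    intro k _
    by_cases hneg : Dl y i j k < 0
    · have hc : Continuous fun ε : ℝ => Dl (fun l => y l + ε * (l : ℝ) ^ 2) i j k := by
        simp only [Dl_add]
        fun_prop
      have h0 : Dl (fun l => y l + (0 : ℝ) * (l : ℝ) ^ 2) i j k < 0 := by
        rw [Dl_add]; simpa using hneg
      have := (hc.tendsto 0).eventually (gt_mem_nhds h0)
      exact (this.filter_mono nhdsWithin_le_nhds).mono fun ε hε _ => hε
    · exact Filter.Eventually.of_forall fun ε h => absurd h hneg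
  obtain ⟨ε, hε, hε0⟩ := (h.and self_mem_nhdsWithin).exists
  have hε0 : 0 < ε := hε0
  refine ⟨fun l => y l + ε * (l : ℝ) ^ 2, ?_⟩
  intro i j k hij hjk hk
  have h1 : (0 : ℝ) < (j : ℝ) - i := by
    have : (i : ℝ) < j := by exact_mod_cast hij
    linarith
  have h2 : (0 : ℝ) < (k : ℝ) - j := by
    have : (j : ℝ) < k := by exact_mod_cast hjk
    linarith
  have h3 : (0 : ℝ) < (k : ℝ) - i := by linarith
  have hpos : 0 ≤ Dl y i j k → 0 < Dl (fun l => y l + ε * (l : ℝ) ^ 2) i j k := by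
    intro h
    rw [Dl_add]
    have : 0 < ε * (((k : ℝ) - i) * (k - j) * (j - i)) := by positivity
    linarith
  have hneg := hε i (Finset.mem_range.2 (by omega)) j (Finset.mem_range.2 (by omega)) k
    (Finset.mem_range.2 (by omega))
  refine ⟨?_, hpos, hneg⟩
  rcases lt_or_ge (Dl y i j k) 0 with h | h
  · exact (hneg h).ne
  · exact (hpos h).ne'

theorem cross_of_collinear {a b c : ℝ × ℝ} (h : Collinear ℝ {a, b, c}) :
    (b.1 - a.1) * (c.2 - a.2) = (b.2 - a.2) * (c.1 - a.1) := by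
  rw [collinear_iff_of_mem (p₀ := a) (by simp)] at h
  obtain ⟨v, hv⟩ := h
  obtain ⟨r, hr⟩ := hv b (by simp)
  obtain ⟨s, hs⟩ := hv c (by simp)
  rw [hr, hs]
  simp only [vadd_eq_add, Prod.fst_add, Prod.smul_fst, Prod.snd_add, Prod.smul_snd, smul_eq_mul]
  ring

theorem generalPosition_pt {z : ℕ → ℝ} {N : ℕ}
    (h : ∀ i j k, i < j → j < k → k ≤ N → Dl z i j k ≠ 0) : GeneralPosition (pt z N) := by
  intro i j k hij hjk hik hcol
  have h1 := cross_of_collinear hcol
  simp only [pt] at h1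
  have hi := i.2
  have hj := j.2
  have hk := k.2
  have hij' : (i : ℕ) ≠ j := fun h => hij (Fin.ext h)
  have hjk' : (j : ℕ) ≠ k := fun h => hjk (Fin.ext h)
  have hik' : (i : ℕ) ≠ k := fun h => hik (Fin.ext h)
  rcases lt_or_gt_of_ne hij' with a | a <;> rcases lt_or_gt_of_ne hjk' with b | b <;>
    rcases lt_or_gt_of_ne hik' with c | c
  · exact h i j k a b (by omega) (by unfold Dl; linarith)
  · omega
  · exact h i k j c b (by omega) (by unfold Dl; linarith)
  · exact h k i j c a (by omega) (by unfold Dl; linarith)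
  · exact h j i k a c (by omega) (by unfold Dl; linarith)
  · exact h j k i b c (by omega) (by unfold Dl; linarith)
  · omega
  · exact h k j i b a (by omega) (by unfold Dl; linarith)

/-- every terrain can be moved to general position without changing the visibility -/
theorem exists_gp {y : ℕ → ℝ} {N : ℕ} (hB : Below y N) : ∃ z : ℕ → ℝ, Below z N ∧
    GeneralPosition (pt z N) ∧ ∀ i k, i < k → k ≤ N → (Vis z i k ↔ Vis y i k) := by
  obtain ⟨z, hz⟩ := perturb y N
  refine ⟨z, ?_, generalPosition_pt fun i j k h1 h2 h3 => (hz i j k h1 h2 h3).1, ?_⟩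
  · intro j h0 h1
    have h2 := (hz 0 j N h0 h1 le_rfl).2.1 (by
      unfold Dl
      have := hB j h0 h1
      push_cast
      linarith)
    unfold Dl at h2
    push_cast at h2
    linarith
  · intro i k _ hk
    unfold Vis
    refine forall_congr' fun j => forall_congr' fun h1 => forall_congr' fun h2 => ?_
    obtain ⟨_, a, b⟩ := hz i j k h1 h2 hk
    constructor
    · intro h
      by_contra hc
      push Not at hc
      exact absurd (b hc) (not_lt.2 h)
    · intro h
      exact (a h).le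

/-- the graph of the family -/
def famGraph (m M : ℕ) (f : ℕ → ℕ) : SimpleGraph (Fin (2 * m + M + 1)) :=
  SimpleGraph.fromRel fun u v => (u : ℕ) < v ∧ ((Chain m u ∧ Chain m v) ∨ (v : ℕ) = u + 1 ∨
      (∃ i < m, (u : ℕ) = 2 * i + 1 ∧ ∃ j, (v : ℕ) = 2 * m + j ∧ M < j + f i))

theorem famGraph_mem {m M : ℕ} {f : ℕ → ℕ} (hm : 0 < m) (hmM : m ≤ M) (hf : ∀ i < m, f i ≤ m) :
    Quotient.mk (isoSetoid _) (famGraph m M f) ∈ visClassesGP (2 * m + M + 1) := by
  have H := hyp_hgt hm hmM hf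
  obtain ⟨z, hzB, hzG, hz⟩ := exists_gp (H.below rfl (by omega))
  refine ⟨pt z _, reg z _, isSimplePolygon hzB (by omega), hzG, ?_⟩
  congr 1
  ext u v
  have key : ∀ u v : Fin (2 * m + M + 1), (u : ℕ) < v →
      (segment ℝ (pt z (2 * m + M) u) (pt z (2 * m + M) v) ⊆ reg z (2 * m + M) ↔
      ((Chain m u ∧ Chain m v) ∨ (v : ℕ) = u + 1 ∨
      (∃ i < m, (u : ℕ) = 2 * i + 1 ∧ ∃ j, (v : ℕ) = 2 * m + j ∧ M < j + f i))) := by
    intro u v huv
    have h1 : (v : ℕ) ≤ 2 * m + M := by omega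
    rw [← H.vis_iff huv, ← hz u v huv h1, ← segment_sub_iff hzB (by omega) huv h1]
    rfl
  unfold famGraph visGraph
  rw [SimpleGraph.fromRel_adj]
  simp only
  rcases lt_trichotomy (u : ℕ) (v : ℕ) with h | h | h
  · have hne : u ≠ v := fun h' => by rw [h'] at h; exact lt_irrefl _ h
    rw [key u v h]
    constructor
    · rintro ⟨h1, h2 | h2⟩
      · exact ⟨h1, h2.2⟩
      · omega
    · rintro ⟨h1, h2⟩
      exact ⟨h1, Or.inl ⟨h, h2⟩⟩
  · have : u = v := Fin.ext h
    simp [this]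
  · have hne : u ≠ v := fun h' => by rw [h'] at h; exact lt_irrefl _ h
    rw [segment_symm, key v u h]
    constructor
    · rintro ⟨h1, h2 | h2⟩
      · omega
      · exact ⟨h1, h2.2⟩
    · rintro ⟨h1, h2⟩
      exact ⟨h1, Or.inr ⟨h, h2⟩⟩

end Pool.Agent.U446.Vis
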