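import Pool.Agent.H124R2.Vis.Local

/-!
# Polygons bounded by the graph of a piecewise linear function and a chord

The vertices are `(i, y i)`, `0 ≤ i ≤ N`, and all the inner vertices lie below the chord through the first and the
last vertex.
-/

set_option autoImplicit false

namespace Pool.Agent.U446.Vis

open Vis124 Set

/-- linear interpolation between `(a, α)` and `(b, β)` -/
noncomputable def lin (a α b β x : ℝ) : ℝ := α + (x - a) / (b - a) * (β - α)

theorem lin_left (a α b β : ℝ) : lin a α b β a = α := by simp [lin]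

theorem lin_right {a α b β : ℝ} (h : a < b) : lin a α b β b = β := by
  have : b - a ≠ 0 := by linarith
  simp only [lin]
  field_simp
  ring

theorem lin_eq {a α b β x : ℝ} (h : a < b) :
    lin a α b β x = ((b - x) * α + (x - a) * β) / (b - a) := by
  have : b - a ≠ 0 := by linarith
  simp only [lin]
  field_simp
  ring

/-- two affine functions which compare at the ends of an interval compare inside -/
theorem lin_le_lin {a α b β c γ d δ u w x : ℝ} (h1 : u ≤ x)
    (h2 : x ≤ w) (hu : lin a α b β u ≤ lin c γ d δ u) (hw : lin a α b β w ≤ lin c γ d δ w) :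
    lin a α b β x ≤ lin c γ d δ x := by
  rcases eq_or_lt_of_le (h1.trans h2) with h | h
  · have : x = u := le_antisymm (by rw [h]; exact h2) h1
    rw [this]; exact hu
  · have e : ∀ a α b β : ℝ, lin a α b β x =
        ((w - x) * lin a α b β u + (x - u) * lin a α b β w) / (w - u) := by
      intro a α b β
      have : w - u ≠ 0 := by linarith
      simp only [lin]
      field_simp
      ring
    rw [e a α b β, e c γ d δ]
    apply div_le_div_of_nonneg_right _ (by linarith)
    have := mul_le_mul_of_nonneg_left hu (by linarith : 0 ≤ w - x)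
    have := mul_le_mul_of_nonneg_left hw (by linarith : 0 ≤ x - u)
    linarith

/-- strict version -/
theorem lin_lt_lin {a α b β c γ d δ u w x : ℝ} (h1 : u < x)
    (h2 : x < w) (hu : lin a α b β u ≤ lin c γ d δ u) (hw : lin a α b β w ≤ lin c γ d δ w)
    (hs : lin a α b β u < lin c γ d δ u ∨ lin a α b β w < lin c γ d δ w) :
    lin a α b β x < lin c γ d δ x := by
  have h : u < w := h1.trans h2
  have e : ∀ a α b β : ℝ, lin a α b β x =
      ((w - x) * lin a α b β u + (x - u) * lin a α b β w) / (w - u) := by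
    intro a α b β
    have : w - u ≠ 0 := by linarith
    simp only [lin]
    field_simp
    ring
  rw [e a α b β, e c γ d δ]
  apply div_lt_div_of_pos_right _ (by linarith)
  rcases hs with hs | hs
  · have := mul_lt_mul_of_pos_left hs (by linarith : 0 < w - x)
    have := mul_le_mul_of_nonneg_left hw (by linarith : 0 ≤ x - u)
    linarith
  · have := mul_le_mul_of_nonneg_left hu (by linarith : 0 ≤ w - x)
    have := mul_lt_mul_of_pos_left hs (by linarith : 0 < x - u)
    linarith

theorem mem_seg {a α b β : ℝ} (h : a < b) (q : ℝ × ℝ) :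
    q ∈ segment ℝ (a, α) (b, β) ↔ a ≤ q.1 ∧ q.1 ≤ b ∧ q.2 = lin a α b β q.1 := by
  have hb : 0 < b - a := by linarith
  rw [segment_eq_image']
  constructor
  · rintro ⟨t, ⟨h0, h1⟩, rfl⟩
    simp only [Prod.fst_add, Prod.smul_fst, Prod.fst_sub, smul_eq_mul, Prod.snd_add,
      Prod.smul_snd, Prod.snd_sub]
    refine ⟨by nlinarith, by nlinarith, ?_⟩
    simp only [lin]
    field_simp
    ring
  · rintro ⟨h1, h2, h3⟩
    refine ⟨(q.1 - a) / (b - a), ⟨div_nonneg (by linarith) hb.le, ?_⟩, ?_⟩
    · rw [div_le_one hb]; linarith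
    · ext
      · simp only [Prod.fst_add, Prod.smul_fst, Prod.fst_sub, smul_eq_mul]
        field_simp
        ring
      · simp only [Prod.snd_add, Prod.smul_snd, Prod.snd_sub, smul_eq_mul]
        rw [h3]
        rfl

/-- the line through the points `(i, y i)` and `(i + 1, y (i + 1))` -/
noncomputable def ln (y : ℕ → ℝ) (i : ℕ) (x : ℝ) : ℝ := lin i (y i) (i + 1) (y (i + 1)) x

/-- the chord -/
noncomputable def ch (y : ℕ → ℝ) (N : ℕ) (x : ℝ) : ℝ := lin 0 (y 0) N (y N) x

/-- the region between the edge `i` and the chord -/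
def trap (y : ℕ → ℝ) (N i : ℕ) : Set (ℝ × ℝ) :=
  {q | (i : ℝ) ≤ q.1 ∧ q.1 ≤ i + 1 ∧ ln y i q.1 ≤ q.2 ∧ q.2 ≤ ch y N q.1}

/-- the polygon -/
def reg (y : ℕ → ℝ) (N : ℕ) : Set (ℝ × ℝ) := {q | ∃ i < N, q ∈ trap y N i}

/-- the vertices -/
def pt (y : ℕ → ℝ) (N : ℕ) : Fin (N + 1) → ℝ × ℝ := fun i => (((i : ℕ) : ℝ), y i)

/-- the inner vertices lie below the chord -/
def Below (y : ℕ → ℝ) (N : ℕ) : Prop :=
  ∀ j, 0 < j → j < N → (N : ℝ) * y j < (N - j) * y 0 + j * y N

section

variable {y : ℕ → ℝ} {N : ℕ}

theorem ln_left (i : ℕ) : ln y i i = y i := lin_left _ _ _ _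

theorem ln_right (i : ℕ) : ln y i (i + 1) = y (i + 1) := lin_right (by linarith)

theorem ch_zero : ch y N 0 = y 0 := lin_left _ _ _ _

theorem ch_last (hN : 0 < N) : ch y N N = y N := lin_right (by exact_mod_cast hN)

theorem ch_eq (hN : 0 < N) (x : ℝ) : ch y N x = ((N - x) * y 0 + x * y N) / N := by
  have : (0 : ℝ) < N := by exact_mod_cast hN
  unfold ch
  rw [lin_eq this]
  ring

theorem lt_ch (hB : Below y N) (hN : 0 < N) {j : ℕ} (h0 : 0 < j) (h1 : j < N) :
    y j < ch y N j := by
  rw [ch_eq hN, lt_div_iff₀ (by exact_mod_cast hN)]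
  have := hB j h0 h1
  linarith

theorem le_ch (hB : Below y N) (hN : 0 < N) {j : ℕ} (h1 : j ≤ N) : y j ≤ ch y N j := by
  rcases Nat.eq_zero_or_pos j with rfl | h0
  · rw [Nat.cast_zero, ch_zero]
  · rcases eq_or_lt_of_le h1 with rfl | h
    · rw [ch_last hN]
    · exact (lt_ch hB hN h0 h).le

theorem ln_le_ch (hB : Below y N) (hN : 0 < N) {i : ℕ} (hi : i < N) {x : ℝ} (h1 : (i : ℝ) ≤ x)
    (h2 : x ≤ i + 1) : ln y i x ≤ ch y N x := by
  have hN' : (0 : ℝ) < N := by exact_mod_cast hN
  refine lin_le_lin h1 h2 ?_ ?_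
  · have := le_ch hB hN hi.le
    change ln y i i ≤ ch y N i
    rw [ln_left]; exact this
  · have := le_ch hB hN (Nat.succ_le_of_lt hi)
    change ln y i (i + 1) ≤ ch y N (i + 1)
    rw [ln_right]; exact_mod_cast this

theorem ln_lt_ch (hB : Below y N) (hN : 2 ≤ N) {i : ℕ} (hi : i < N) {x : ℝ} (h1 : (i : ℝ) < x)
    (h2 : x < i + 1) : ln y i x < ch y N x := by
  have hN0 : 0 < N := by omega
  have hN' : (0 : ℝ) < N := by exact_mod_cast hN0
  refine lin_lt_lin h1 h2 ?_ ?_ ?_
  · have := le_ch hB hN0 hi.le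
    change ln y i i ≤ ch y N i
    rw [ln_left]; exact this
  · have := le_ch hB hN0 (Nat.succ_le_of_lt hi)
    change ln y i (i + 1) ≤ ch y N (i + 1)
    rw [ln_right]; exact_mod_cast this
  · rcases Nat.eq_zero_or_pos i with rfl | h0
    · right
      have := lt_ch hB hN0 (j := 1) (by omega) (by omega)
      change ln y 0 ((0 : ℕ) + 1) < ch y N ((0 : ℕ) + 1)
      rw [ln_right]
      simpa using this
    · left
      have := lt_ch hB hN0 h0 hi
      change ln y i i < ch y N i
      rw [ln_left]; exact this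

/-- the lines are consistent -/
theorem ln_consistent {i j : ℕ} {x : ℝ} (h1 : (i : ℝ) ≤ x) (h2 : x ≤ i + 1) (h3 : (j : ℝ) ≤ x)
    (h4 : x ≤ j + 1) : ln y i x = ln y j x := by
  have key : ∀ i j : ℕ, i < j → (i : ℝ) ≤ x → x ≤ i + 1 → (j : ℝ) ≤ x → x ≤ j + 1 →
      ln y i x = ln y j x := by
    intro i j hij h1 h2 h3 h4
    have h5 : ((i + 1 : ℕ) : ℝ) ≤ j := by exact_mod_cast hij
    push_cast at h5
    have h6 : x = i + 1 := le_antisymm h2 (h5.trans h3)
    have h7 : j = i + 1 := by
      have : (j : ℝ) ≤ ((i + 1 : ℕ) : ℝ) := by push_cast; linarith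
      have := Nat.cast_le.1 this
      omega
    subst h7
    rw [h6, ln_right]
    have := ln_left (y := y) (i + 1)
    push_cast at this
    exact this.symm
  rcases lt_trichotomy i j with h | h | h
  · exact key i j h h1 h2 h3 h4
  · rw [h]
  · exact (key j i h h3 h4 h1 h2).symm

theorem exists_floor {x : ℝ} (hN : 0 < N) (h0 : 0 ≤ x) (h1 : x ≤ N) :
    ∃ i < N, (i : ℝ) ≤ x ∧ x ≤ i + 1 := by
  rcases eq_or_lt_of_le h1 with h | h
  · refine ⟨N - 1, by omega, ?_, ?_⟩
    · rw [h]
      have : ((N - 1 : ℕ) : ℝ) ≤ (N : ℝ) := by exact_mod_cast Nat.sub_le _ _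
      exact this
    · rw [h]
      have : ((N : ℕ) : ℝ) = ((N - 1 : ℕ) : ℝ) + 1 := by
        have : N = (N - 1) + 1 := by omega
        exact_mod_cast this
      exact this.le
  · refine ⟨⌊x⌋₊, (Nat.floor_lt h0).2 h, Nat.floor_le h0, (Nat.lt_floor_add_one x).le⟩

theorem continuous_lin (a α b β : ℝ) : Continuous (lin a α b β) := by
  unfold lin
  fun_prop

theorem continuous_ln (i : ℕ) : Continuous (ln y i) := continuous_lin _ _ _ _

theorem continuous_ch : Continuous (ch y N) := continuous_lin _ _ _ _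

theorem isClosed_trap (i : ℕ) : IsClosed (trap y N i) := by
  have h1 := (continuous_ln (y := y) i)
  have h2 := (continuous_ch (y := y) (N := N))
  refine (isClosed_le continuous_const continuous_fst).inter
    ((isClosed_le continuous_fst continuous_const).inter
    ((isClosed_le (h1.comp continuous_fst) continuous_snd).inter
      (isClosed_le continuous_snd (h2.comp continuous_fst))))

theorem isCompact_trap (i : ℕ) : IsCompact (trap y N i) := by
  apply Metric.isCompact_of_isClosed_isBounded (isClosed_trap i)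
  have h1 : IsCompact (Icc (i : ℝ) (i + 1)) := isCompact_Icc
  obtain ⟨A, hA⟩ := (h1.image (continuous_ln (y := y) i)).isBounded.subset_closedBall 0
  obtain ⟨B, hB⟩ := (h1.image (continuous_ch (y := y) (N := N))).isBounded.subset_closedBall 0
  refine (Metric.isBounded_Icc ((i : ℝ), -A) ((i : ℝ) + 1, B)).subset ?_
  rintro q ⟨a1, a2, a3, a4⟩
  have hq : q.1 ∈ Icc (i : ℝ) (i + 1) := ⟨a1, a2⟩
  have b1 := hA (mem_image_of_mem _ hq)
  have b2 := hB (mem_image_of_mem _ hq)
  rw [mem_closedBall_zero_iff, Real.norm_eq_abs] at b1 b2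
  exact ⟨⟨a1, by simp only; linarith [(abs_le.1 b1).1]⟩,
    ⟨a2, by simp only; linarith [(abs_le.1 b2).2]⟩⟩

theorem reg_eq : reg y N = ⋃ i ∈ Finset.range N, trap y N i := by
  ext q
  simp [reg]

theorem isCompact_reg : IsCompact (reg y N) := by
  rw [reg_eq]
  exact (Finset.range N).isCompact_biUnion fun i _ => isCompact_trap i

theorem isClosed_reg : IsClosed (reg y N) := isCompact_reg.isClosed

/-- the open set inside the region around the line over `(u, w)` -/
theorem mem_interior_of_open {q : ℝ × ℝ} {U : Set (ℝ × ℝ)} (hU : IsOpen U) (hq : q ∈ U)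
    (hsub : U ⊆ reg y N) : q ∈ interior (reg y N) :=
  mem_interior.2 ⟨U, hsub, hU, hq⟩

theorem isOpen_box (i : ℕ) :
    IsOpen {q : ℝ × ℝ | (i : ℝ) < q.1 ∧ q.1 < i + 1 ∧ ln y i q.1 < q.2 ∧ q.2 < ch y N q.1} := by
  have h1 := (continuous_ln (y := y) i)
  have h2 := (continuous_ch (y := y) (N := N))
  exact (isOpen_lt continuous_const continuous_fst).inter
    ((isOpen_lt continuous_fst continuous_const).inter
    ((isOpen_lt (h1.comp continuous_fst) continuous_snd).inter
      (isOpen_lt continuous_snd (h2.comp continuous_fst))))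

theorem convex_trap (i : ℕ) : Convex ℝ (trap y N i) := by
  have key : ∀ a α b β x z s t : ℝ, s + t = 1 →
      lin a α b β (s * x + t * z) = s * lin a α b β x + t * lin a α b β z := by
    intro a α b β x z s t hst
    obtain rfl : s = 1 - t := by linarith
    simp only [lin]
    ring
  rintro q ⟨a1, a2, a3, a4⟩ r ⟨b1, b2, b3, b4⟩ s t hs ht hst
  refine ⟨?_, ?_, ?_, ?_⟩
  · simp only [Prod.fst_add, Prod.smul_fst, smul_eq_mul]
    nlinarith
  · simp only [Prod.fst_add, Prod.smul_fst, smul_eq_mul]
    nlinarith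
  · simp only [Prod.fst_add, Prod.smul_fst, smul_eq_mul, Prod.snd_add, Prod.smul_snd]
    unfold ln at a3 b3 ⊢
    rw [key _ _ _ _ _ _ _ _ hst]
    have := mul_le_mul_of_nonneg_left a3 hs
    have := mul_le_mul_of_nonneg_left b3 ht
    linarith
  · simp only [Prod.fst_add, Prod.smul_fst, smul_eq_mul, Prod.snd_add, Prod.smul_snd]
    unfold ch at a4 b4 ⊢
    rw [key _ _ _ _ _ _ _ _ hst]
    have := mul_le_mul_of_nonneg_left a4 hs
    have := mul_le_mul_of_nonneg_left b4 ht
    linarith

theorem trap_subset_closure (hB : Below y N) (hN : 2 ≤ N) {i : ℕ} (hi : i < N) :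
    trap y N i ⊆ closure (interior (reg y N)) := by
  have hne : (interior (trap y N i)).Nonempty := by
    refine ⟨((i : ℝ) + 1 / 2, (ln y i (i + 1 / 2) + ch y N (i + 1 / 2)) / 2), ?_⟩
    have hlt := ln_lt_ch hB hN hi (x := (i : ℝ) + 1 / 2) (by linarith) (by linarith)
    refine mem_interior.2 ⟨_, ?_, isOpen_box (y := y) (N := N) i, ?_⟩
    · rintro q ⟨a1, a2, a3, a4⟩
      exact ⟨a1.le, a2.le, a3.le, a4.le⟩
    · refine ⟨by simp, by simp; norm_num, ?_, ?_⟩
      · simp only; linarith
      · simp only; linarith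
  have h1 := (convex_trap (y := y) (N := N) i).closure_interior_eq_closure_of_nonempty_interior hne
  rw [(isClosed_trap i).closure_eq] at h1
  rw [← h1]
  apply closure_mono
  apply interior_mono
  intro q hq
  exact ⟨i, hi, hq⟩

theorem mem_curve (hN : 2 ≤ N) (q : ℝ × ℝ) : q ∈ curve (pt y N) ↔
    (∃ i < N, (i : ℝ) ≤ q.1 ∧ q.1 ≤ i + 1 ∧ q.2 = ln y i q.1) ∨
      (0 ≤ q.1 ∧ q.1 ≤ (N : ℝ) ∧ q.2 = ch y N q.1) := by
  have hN' : (0 : ℝ) < N := by
    have : 0 < N := by omega
    exact_mod_cast this
  have e1 : ∀ i : Fin (N + 1), ((i : ℕ) < N) → edge (pt y N) i =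
      {q : ℝ × ℝ | ((i : ℕ) : ℝ) ≤ q.1 ∧ q.1 ≤ ((i : ℕ) : ℝ) + 1 ∧ q.2 = ln y i q.1} := by
    intro i hi
    ext q
    have h1 : ((sc i : Fin (N + 1)) : ℕ) = i + 1 := by rw [sc_val, if_pos (by omega)]
    have h2 : pt y N (finRotate (N + 1) i) = (((i : ℕ) : ℝ) + 1, y (i + 1)) := by
      have : ((finRotate (N + 1) i : Fin (N + 1)) : ℕ) = i + 1 := h1
      simp only [pt, this]
      push_cast
      rfl
    unfold edge
    rw [h2]
    unfold pt
    rw [mem_seg (by linarith)]
    rfl
  have e2 : edge (pt y N) (Fin.last N) =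
      {q : ℝ × ℝ | 0 ≤ q.1 ∧ q.1 ≤ (N : ℝ) ∧ q.2 = ch y N q.1} := by
    ext q
    have h1 : ((sc (Fin.last N) : Fin (N + 1)) : ℕ) = 0 := by
      rw [sc_val, if_neg (by simp)]
    have h2 : pt y N (finRotate (N + 1) (Fin.last N)) = (0, y 0) := by
      have : ((finRotate (N + 1) (Fin.last N) : Fin (N + 1)) : ℕ) = 0 := h1
      simp only [pt, this]
      simp
    unfold edge
    rw [h2, segment_symm]
    unfold pt
    rw [mem_seg (by simpa using hN')]
    simp only [Fin.val_last]
    rfl
  unfold curve
  rw [mem_iUnion]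
  constructor
  · rintro ⟨i, hi⟩
    by_cases h : (i : ℕ) < N
    · left
      rw [e1 i h] at hi
      exact ⟨i, h, hi⟩
    · right
      have : i = Fin.last N := by
        apply Fin.ext
        have := i.2
        simp only [Fin.val_last]
        omega
      rw [this, e2] at hi
      exact hi
  · rintro (⟨i, h, hi⟩ | hi)
    · refine ⟨⟨i, by omega⟩, ?_⟩
      rw [e1 ⟨i, by omega⟩ h]
      exact hi
    · exact ⟨Fin.last N, by rw [e2]; exact hi⟩

theorem frontier_reg (hB : Below y N) (hN : 2 ≤ N) : frontier (reg y N) = curve (pt y N) := by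
  have hN0 : 0 < N := by omega
  have hN' : (0 : ℝ) < N := by exact_mod_cast hN0
  rw [isClosed_reg.frontier_eq]
  ext q
  rw [mem_curve hN]
  constructor
  · rintro ⟨⟨i, hi, a1, a2, a3, a4⟩, hint⟩
    by_contra hcon
    push Not at hcon
    obtain ⟨c1, c2⟩ := hcon
    apply hint
    have hi' : ((i : ℝ) + 1) ≤ N := by exact_mod_cast hi
    have b3 : ln y i q.1 < q.2 := lt_of_le_of_ne a3 (fun h => c1 i hi a1 a2 h.symm)
    have b4 : q.2 < ch y N q.1 :=
      lt_of_le_of_ne a4 (c2 (le_trans (Nat.cast_nonneg i) a1) (a2.trans hi'))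
    -- not on the left or right boundary
    have hx0 : (0 : ℝ) < q.1 := by
      rcases eq_or_lt_of_le (le_trans (Nat.cast_nonneg i) a1 : (0 : ℝ) ≤ q.1) with h | h
      · exfalso
        have hi0 : i = 0 := by
          have : (i : ℝ) ≤ ((0 : ℕ) : ℝ) := by rw [Nat.cast_zero, h]; exact a1
          have := Nat.cast_le.1 this
          omega
        subst hi0
        rw [← h] at b3 b4
        rw [ch_zero] at b4
        have := ln_left (y := y) 0
        push_cast at this
        rw [this] at b3
        linarith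
      · exact h
    have hxN : q.1 < N := by
      rcases eq_or_lt_of_le (a2.trans hi') with h | h
      · exfalso
        have hiN : N = i + 1 := by
          have h5 : (N : ℝ) ≤ ((i + 1 : ℕ) : ℝ) := by push_cast; rw [← h]; exact a2
          have := Nat.cast_le.1 h5
          omega
        rw [h] at b3 b4
        rw [ch_last hN0] at b4
        have h6 : ln y i N = y N := by
          rw [hiN]; push_cast; exact ln_right i
        rw [h6] at b3
        linarith
      · exact h
    rcases eq_or_lt_of_le a1 with h | h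
    · -- on the left side of the box
      obtain ⟨j, rfl⟩ : ∃ j, i = j + 1 := by
        refine ⟨i - 1, ?_⟩
        have : i ≠ 0 := by rintro rfl; rw [← h] at hx0; simp at hx0
        omega
      push_cast at *
      refine mem_interior_of_open (U := {q : ℝ × ℝ | (j : ℝ) < q.1 ∧ q.1 < (j : ℝ) + 1 + 1 ∧
        ln y j q.1 < q.2 ∧ ln y (j + 1) q.1 < q.2 ∧ q.2 < ch y N q.1}) ?_ ?_ ?_
      · have h1 := (continuous_ln (y := y) j)
        have h1' := (continuous_ln (y := y) (j + 1))
        have h2 := (continuous_ch (y := y) (N := N))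
        exact (isOpen_lt continuous_const continuous_fst).inter
          ((isOpen_lt continuous_fst continuous_const).inter
          ((isOpen_lt (h1.comp continuous_fst) continuous_snd).inter
          ((isOpen_lt (h1'.comp continuous_fst) continuous_snd).inter
          (isOpen_lt continuous_snd (h2.comp continuous_fst)))))
      · refine ⟨by linarith, by linarith, ?_, b3, b4⟩
        rw [ln_consistent (i := j) (j := j + 1) (by linarith) (by linarith)
          (by push_cast; linarith) (by push_cast; linarith)]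
        exact b3
      · rintro r ⟨r1, r2, r3, r4, r5⟩
        by_cases hr : r.1 ≤ (j : ℝ) + 1
        · exact ⟨j, by omega, r1.le, hr, r3.le, r5.le⟩
        · push Not at hr
          exact ⟨j + 1, hi, by push_cast; exact hr.le, by push_cast; exact r2.le, r4.le, r5.le⟩
    · rcases eq_or_lt_of_le a2 with h' | h'
      · -- on the right side of the box
        have hi1 : i + 1 < N := by
          have : ((i + 1 : ℕ) : ℝ) < N := by push_cast; rw [← h']; exact hxN
          exact_mod_cast this
        refine mem_interior_of_open (U := {q : ℝ × ℝ | (i : ℝ) < q.1 ∧ q.1 < (i : ℝ) + 1 + 1 ∧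
          ln y i q.1 < q.2 ∧ ln y (i + 1) q.1 < q.2 ∧ q.2 < ch y N q.1}) ?_ ?_ ?_
        · have h1 := (continuous_ln (y := y) i)
          have h1' := (continuous_ln (y := y) (i + 1))
          have h2 := (continuous_ch (y := y) (N := N))
          exact (isOpen_lt continuous_const continuous_fst).inter
            ((isOpen_lt continuous_fst continuous_const).inter
            ((isOpen_lt (h1.comp continuous_fst) continuous_snd).inter
            ((isOpen_lt (h1'.comp continuous_fst) continuous_snd).inter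
            (isOpen_lt continuous_snd (h2.comp continuous_fst)))))
        · refine ⟨by linarith, by linarith, b3, ?_, b4⟩
          rw [← ln_consistent (i := i) (j := i + 1) (by linarith) (by linarith)
            (by push_cast; linarith) (by push_cast; linarith)]
          exact b3
        · rintro r ⟨r1, r2, r3, r4, r5⟩
          by_cases hr : r.1 ≤ (i : ℝ) + 1
          · exact ⟨i, hi, r1.le, hr, r3.le, r5.le⟩
          · push Not at hr
            exact ⟨i + 1, hi1, by push_cast; exact hr.le, by push_cast; exact r2.le, r4.le, r5.le⟩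
      · refine mem_interior_of_open (isOpen_box (y := y) (N := N) i) ⟨h, h', b3, b4⟩ ?_
        rintro r ⟨r1, r2, r3, r4⟩
        exact ⟨i, hi, r1.le, r2.le, r3.le, r4.le⟩
  · intro hq
    have hmem : q ∈ reg y N := by
      rcases hq with ⟨i, hi, a1, a2, a3⟩ | ⟨a1, a2, a3⟩
      · exact ⟨i, hi, a1, a2, a3.ge, by rw [a3]; exact ln_le_ch hB hN0 hi a1 a2⟩
      · obtain ⟨i, hi, b1, b2⟩ := exists_floor hN0 a1 a2
        exact ⟨i, hi, b1, b2, by rw [a3]; exact ln_le_ch hB hN0 hi b1 b2, a3.le⟩
    refine ⟨hmem, fun hint => ?_⟩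
    rw [mem_interior_iff_mem_nhds, Metric.mem_nhds_iff] at hint
    obtain ⟨ε, hε, hball⟩ := hint
    rcases hq with ⟨i, hi, a1, a2, a3⟩ | ⟨a1, a2, a3⟩
    · have h1 : (q.1, q.2 - ε / 2) ∈ Metric.ball q ε := by
        rw [Metric.mem_ball, Prod.dist_eq]
        simp only [dist_self, max_lt_iff]
        refine ⟨hε, ?_⟩
        rw [Real.dist_eq]
        have : q.2 - ε / 2 - q.2 = -(ε / 2) := by ring
        rw [this, abs_neg, abs_of_pos (by linarith)]
        linarith
      obtain ⟨j, hj, b1, b2, b3, b4⟩ := hball h1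
      simp only at b1 b2 b3 b4
      rw [ln_consistent b1 b2 a1 a2, ← a3] at b3
      linarith
    · have h1 : (q.1, q.2 + ε / 2) ∈ Metric.ball q ε := by
        rw [Metric.mem_ball, Prod.dist_eq]
        simp only [dist_self, max_lt_iff]
        refine ⟨hε, ?_⟩
        rw [Real.dist_eq]
        have : q.2 + ε / 2 - q.2 = ε / 2 := by ring
        rw [this, abs_of_pos (by linarith)]
        linarith
      obtain ⟨j, hj, b1, b2, b3, b4⟩ := hball h1
      simp only at b1 b2 b3 b4
      rw [← a3] at b4
      linarith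

theorem edge_lt (i : Fin (N + 1)) (hi : (i : ℕ) < N) : edge (pt y N) i =
    {q : ℝ × ℝ | ((i : ℕ) : ℝ) ≤ q.1 ∧ q.1 ≤ ((i : ℕ) : ℝ) + 1 ∧ q.2 = ln y i q.1} := by
  ext q
  have h1 : ((sc i : Fin (N + 1)) : ℕ) = i + 1 := by rw [sc_val, if_pos (by omega)]
  have h2 : pt y N (finRotate (N + 1) i) = (((i : ℕ) : ℝ) + 1, y (i + 1)) := by
    have : ((finRotate (N + 1) i : Fin (N + 1)) : ℕ) = i + 1 := h1
    simp only [pt, this]
    push_cast
    rfl
  unfold edge
  rw [h2]
  unfold pt
  rw [mem_seg (by linarith)]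
  rfl

theorem edge_last (hN : 2 ≤ N) :
    edge (pt y N) (Fin.last N) =
      {q : ℝ × ℝ | 0 ≤ q.1 ∧ q.1 ≤ (N : ℝ) ∧ q.2 = ch y N q.1} := by
  have hN' : (0 : ℝ) < N := by
    have : 0 < N := by omega
    exact_mod_cast this
  ext q
  have h1 : ((sc (Fin.last N) : Fin (N + 1)) : ℕ) = 0 := by
    rw [sc_val, if_neg (by simp)]
  have h2 : pt y N (finRotate (N + 1) (Fin.last N)) = (0, y 0) := by
    have : ((finRotate (N + 1) (Fin.last N) : Fin (N + 1)) : ℕ) = 0 := h1
    simp only [pt, this]
    simp
  unfold edge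
  rw [h2, segment_symm]
  unfold pt
  rw [mem_seg (by simpa using hN')]
  simp only [Fin.val_last]
  rfl

theorem pt_injective : Function.Injective (pt y N) := by
  intro i j h
  have := congrArg Prod.fst h
  simp only [pt] at this
  exact Fin.ext (by exact_mod_cast this)

/-- the terrain polygon is a simple polygon -/
theorem isSimplePolygon (hB : Below y N) (hN : 2 ≤ N) : IsSimplePolygon (pt y N) (reg y N) where
  three_le := by omega
  injective := pt_injective
  compact := isCompact_reg
  boundary := frontier_reg hB hN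
  regular := by
    apply Subset.antisymm
    · exact closure_minimal interior_subset isClosed_reg
    · rintro q ⟨i, hi, hq⟩
      exact trap_subset_closure hB hN hi hq
  simple := by
    have hN0 : 0 < N := by omega
    have hN' : (0 : ℝ) < N := by exact_mod_cast hN0
    have hsucc : ∀ i : Fin (N + 1), (i : ℕ) < N →
        pt y N (finRotate (N + 1) i) = (((i : ℕ) : ℝ) + 1, y (i + 1)) := by
      intro i hi
      have h1 : ((sc i : Fin (N + 1)) : ℕ) = i + 1 := by rw [sc_val, if_pos (by omega)]
      have : ((finRotate (N + 1) i : Fin (N + 1)) : ℕ) = i + 1 := h1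
      simp only [pt, this]
      push_cast
      rfl
    have hlast : pt y N (finRotate (N + 1) (Fin.last N)) = (0, y 0) := by
      have h1 : ((sc (Fin.last N) : Fin (N + 1)) : ℕ) = 0 := by
        rw [sc_val, if_neg (by simp)]
      have : ((finRotate (N + 1) (Fin.last N) : Fin (N + 1)) : ℕ) = 0 := h1
      simp only [pt, this]
      simp
    -- two edges of the terrain
    have key1 : ∀ i j : Fin (N + 1), (i : ℕ) < j → (j : ℕ) < N →
        ∀ q ∈ edge (pt y N) i ∩ edge (pt y N) j,
          q = pt y N (finRotate (N + 1) i) ∧ q = pt y N j := by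
      rintro i j hij hj q ⟨h1, h2⟩
      rw [edge_lt i (by omega)] at h1
      rw [edge_lt j hj] at h2
      obtain ⟨a1, a2, a3⟩ := h1
      obtain ⟨b1, b2, b3⟩ := h2
      have h5 : (((i : ℕ) + 1 : ℕ) : ℝ) ≤ ((j : ℕ) : ℝ) := by exact_mod_cast hij
      push_cast at h5
      have h6 : q.1 = (i : ℕ) + 1 := le_antisymm a2 (h5.trans b1)
      have h7 : (j : ℕ) = i + 1 := by
        have : ((j : ℕ) : ℝ) ≤ (((i : ℕ) + 1 : ℕ) : ℝ) := by push_cast; linarith
        have := Nat.cast_le.1 this
        omega
      have hq : q = (((i : ℕ) : ℝ) + 1, y (i + 1)) := by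
        ext
        · exact h6
        · rw [a3, h6, ln_right]
      refine ⟨by rw [hsucc i (by omega)]; exact hq, ?_⟩
      rw [hq]
      simp only [pt, h7]
      push_cast
      rfl
    -- an edge of the terrain and the chord
    have key2 : ∀ i : Fin (N + 1), (i : ℕ) < N →
        ∀ q ∈ edge (pt y N) i ∩ edge (pt y N) (Fin.last N),
          (q = pt y N i ∧ q = (0, y 0)) ∨ (q = pt y N (finRotate (N + 1) i) ∧ q = ((N : ℝ), y N)) := by
      rintro i hi q ⟨h1, h2⟩
      rw [edge_lt i hi] at h1
      rw [edge_last hN] at h2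
      obtain ⟨a1, a2, a3⟩ := h1
      obtain ⟨b1, b2, b3⟩ := h2
      rcases eq_or_lt_of_le a1 with h | h
      · -- q.1 = i
        rw [← h, ln_left] at a3
        rw [← h] at b3
        rcases Nat.eq_zero_or_pos (i : ℕ) with h0 | h0
        · left
          have hq : q = (0, y 0) := by
            ext
            · rw [← h, h0]; simp
            · rw [a3, h0]
          refine ⟨?_, hq⟩
          rw [hq]
          simp only [pt, h0]
          simp
        · exfalso
          have := lt_ch hB hN0 h0 hi
          rw [← b3, a3] at this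
          exact lt_irrefl _ this
      · rcases eq_or_lt_of_le a2 with h' | h'
        · -- q.1 = i + 1
          rw [h', ln_right] at a3
          by_cases hiN : (i : ℕ) + 1 = N
          · right
            have hc : ((i : ℕ) : ℝ) + 1 = N := by exact_mod_cast hiN
            have hq : q = ((N : ℝ), y N) := by
              ext
              · simp only; rw [h', hc]
              · simp only; rw [a3, hiN]
            refine ⟨?_, hq⟩
            rw [hsucc i hi, hq, hc, hiN]
          · exfalso
            have := lt_ch hB hN0 (j := (i : ℕ) + 1) (by omega) (by omega)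
            push_cast at this
            rw [← h', ← b3, a3] at this
            exact lt_irrefl _ this
        · exfalso
          have := ln_lt_ch hB hN hi h h'
          rw [← a3, ← b3] at this
          exact lt_irrefl _ this
    have hlastpt : pt y N (Fin.last N) = ((N : ℝ), y N) := by
      simp [pt]
    intro i j hij q hq
    -- reduce to i < j
    rcases lt_trichotomy (i : ℕ) (j : ℕ) with h | h | h
    · by_cases hj : (j : ℕ) < N
      · obtain ⟨h1, h2⟩ := key1 i j h hj q hq
        exact ⟨Or.inr h1, Or.inl h2⟩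
      · have hj' : j = Fin.last N := by
          apply Fin.ext
          have := j.2
          simp only [Fin.val_last]
          omega
        subst hj'
        rcases key2 i (by simpa using h) q hq with ⟨h1, h2⟩ | ⟨h1, h2⟩
        · exact ⟨Or.inl h1, Or.inr (by rw [mem_singleton_iff, hlast]; exact h2)⟩
        · exact ⟨Or.inr h1, Or.inl (by rw [hlastpt]; exact h2)⟩
    · exact absurd (Fin.ext h) hij
    · by_cases hi : (i : ℕ) < N
      · obtain ⟨h1, h2⟩ := key1 j i h hi q ⟨hq.2, hq.1⟩
        exact ⟨Or.inl h2, Or.inr h1⟩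
      · have hi' : i = Fin.last N := by
          apply Fin.ext
          have := i.2
          simp only [Fin.val_last]
          omega
        subst hi'
        rcases key2 j (by simpa using h) q ⟨hq.2, hq.1⟩ with ⟨h1, h2⟩ | ⟨h1, h2⟩
        · exact ⟨Or.inr (by rw [mem_singleton_iff, hlast]; exact h2), Or.inl h1⟩
        · exact ⟨Or.inl (by rw [hlastpt]; exact h2), Or.inr h1⟩

/-- the visibility criterion -/
theorem visible_iff (hB : Below y N) (hN : 2 ≤ N) {i k : ℕ} (hik : i < k) (hk : k ≤ N) :
    segment ℝ ((i : ℝ), y i) ((k : ℝ), y k) ⊆ reg y N ↔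
      ∀ j, i < j → j < k → ((k : ℝ) - i) * y j ≤ (k - j) * y i + (j - i) * y k := by
  have hN0 : 0 < N := by omega
  have hN' : (0 : ℝ) < N := by exact_mod_cast hN0
  have hik' : (i : ℝ) < k := by exact_mod_cast hik
  have hval : ∀ j : ℕ, y j ≤ lin i (y i) k (y k) j ↔
      ((k : ℝ) - i) * y j ≤ (k - j) * y i + (j - i) * y k := by
    intro j
    rw [lin_eq hik', le_div_iff₀ (by linarith)]
    constructor <;> intro h <;> linarith
  constructor
  · intro hsub j h1 h2
    rw [← hval]
    have h1' : (i : ℝ) < j := by exact_mod_cast h1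
    have h2' : (j : ℝ) < k := by exact_mod_cast h2
    have hmem : ((j : ℝ), lin i (y i) k (y k) j) ∈ segment ℝ ((i : ℝ), y i) ((k : ℝ), y k) := by
      rw [mem_seg hik']
      exact ⟨h1'.le, h2'.le, rfl⟩
    obtain ⟨l, hl, a1, a2, a3, a4⟩ := hsub hmem
    simp only at a1 a2 a3 a4
    rw [ln_consistent (j := j) a1 a2 le_rfl (by linarith), ln_left] at a3
    exact a3
  · intro h q hq
    rw [mem_seg hik'] at hq
    obtain ⟨a1, a2, a3⟩ := hq
    -- the edge below
    obtain ⟨l, hil, hlk, b1, b2⟩ : ∃ l : ℕ, i ≤ l ∧ l < k ∧ (l : ℝ) ≤ q.1 ∧ q.1 ≤ l + 1 := by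
      rcases eq_or_lt_of_le a2 with h' | h'
      · refine ⟨k - 1, by omega, by omega, ?_, ?_⟩
        · rw [h']
          have : ((k - 1 : ℕ) : ℝ) ≤ (k : ℝ) := by exact_mod_cast Nat.sub_le _ _
          exact this
        · rw [h']
          have : ((k : ℕ) : ℝ) = ((k - 1 : ℕ) : ℝ) + 1 := by
            have : k = (k - 1) + 1 := by omega
            exact_mod_cast this
          exact this.le
      · have h0 : 0 ≤ q.1 := le_trans (Nat.cast_nonneg i) a1
        exact ⟨⌊q.1⌋₊, Nat.le_floor a1, (Nat.floor_lt h0).2 h', Nat.floor_le h0,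
          (Nat.lt_floor_add_one q.1).le⟩
    have hends : ∀ j : ℕ, i ≤ j → j ≤ k → y j ≤ lin i (y i) k (y k) j := by
      intro j h1 h2
      rcases eq_or_lt_of_le h1 with rfl | h1
      · rw [lin_left]
      · rcases eq_or_lt_of_le h2 with rfl | h2
        · rw [lin_right hik']
        · rw [hval]; exact h j h1 h2
    have hup : ∀ j : ℕ, j = i ∨ j = k → lin i (y i) k (y k) j ≤ ch y N j := by
      intro j hj
      rcases hj with rfl | rfl
      · rw [lin_left]; exact le_ch hB hN0 (by omega)
      · rw [lin_right hik']; exact le_ch hB hN0 hk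
    refine ⟨l, by omega, b1, b2, ?_, ?_⟩
    · rw [a3]
      refine lin_le_lin b1 b2 ?_ ?_
      · change ln y l l ≤ _
        rw [ln_left]
        exact hends l hil hlk.le
      · change ln y l (l + 1) ≤ _
        rw [ln_right]
        have := hends (l + 1) (by omega) (by omega)
        push_cast at this
        exact this
    · rw [a3]
      exact lin_le_lin a1 a2 (hup i (Or.inl rfl)) (hup k (Or.inr rfl))

end

end Pool.Agent.U446.Vis
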